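import Pool.Agent.Helper46.Stiff.Defs

/-! # Basic facts on test functions and the Rayleigh quotient -/

open MeasureTheory Set Metric Filter Topology
open scoped ENNReal NNReal ContDiff

namespace Pool.Agent.Helper46.Stiff

/-- Dirichlet energy -/
noncomputable def Dir (Ω : Set Plane) (u : Plane → ℝ) : ℝ := ∫ x in Ω, ‖gradient u x‖ ^ 2

/-- the squared L² norm -/
noncomputable def L2 (Ω : Set Plane) (u : Plane → ℝ) : ℝ := ∫ x in Ω, u x ^ 2

/-- the energy on `μ` -/
noncomputable def Sti (μ : Measure Plane) (u : Plane → ℝ) : ℝ := ∫ x, ‖gradient u x‖ ^ 2 ∂μ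

lemma rayleigh_eq (Ω : Set Plane) (m : ℝ) (μ : Measure Plane) (u : Plane → ℝ) :
    rayleigh Ω m μ u = (Dir Ω u + m * Sti μ u) / L2 Ω u := rfl

lemma norm_gradient (u : Plane → ℝ) (x : Plane) : ‖gradient u x‖ = ‖fderiv ℝ u x‖ := by
  unfold gradient
  exact (InnerProductSpace.toDual ℝ Plane).symm.norm_map _

variable {Ω : Set Plane} {u : Plane → ℝ}

lemma IsTest.contDiff1 (hu : IsTest Ω u) : ContDiff ℝ 1 u := hu.1.of_le (by simp)

lemma IsTest.continuous (hu : IsTest Ω u) : Continuous u := hu.1.continuous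

lemma IsTest.continuous_fderiv (hu : IsTest Ω u) : Continuous (fderiv ℝ u) :=
  hu.contDiff1.continuous_fderiv one_ne_zero

lemma IsTest.differentiable (hu : IsTest Ω u) : Differentiable ℝ u :=
  hu.contDiff1.differentiable one_ne_zero

lemma IsTest.continuous_norm_gradient (hu : IsTest Ω u) : Continuous fun x => ‖gradient u x‖ := by
  simp_rw [norm_gradient]
  exact hu.continuous_fderiv.norm

lemma IsTest.continuous_sq (hu : IsTest Ω u) : Continuous fun x => ‖gradient u x‖ ^ 2 :=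
  hu.continuous_norm_gradient.pow 2

lemma IsTest.gradient_eq_zero (_hu : IsTest Ω u) {x : Plane} (hx : x ∉ tsupport u) :
    gradient u x = 0 := by
  have : fderiv ℝ u x = 0 := by
    by_contra h
    exact hx (support_fderiv_subset ℝ h)
  rw [← norm_eq_zero, norm_gradient, this, norm_zero]

lemma IsTest.hasCompactSupport_norm (hu : IsTest Ω u) :
    HasCompactSupport fun x => ‖gradient u x‖ := by
  apply HasCompactSupport.of_support_subset_isCompact hu.2.1
  intro x hx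
  by_contra h
  exact hx (by simp [hu.gradient_eq_zero h])

lemma IsTest.hasCompactSupport_sq (hu : IsTest Ω u) :
    HasCompactSupport fun x => ‖gradient u x‖ ^ 2 := by
  apply HasCompactSupport.of_support_subset_isCompact hu.2.1
  intro x hx
  by_contra h
  exact hx (by simp [hu.gradient_eq_zero h])

lemma IsTest.hasCompactSupport_usq (hu : IsTest Ω u) :
    HasCompactSupport fun x => u x ^ 2 := by
  apply HasCompactSupport.of_support_subset_isCompact hu.2.1
  intro x hx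
  apply subset_tsupport
  intro h
  exact hx (by simp [h])

lemma IsTest.eq_zero (hu : IsTest Ω u) {x : Plane} (hx : x ∉ Ω) : u x = 0 := by
  by_contra h
  exact hx (hu.2.2 (subset_tsupport _ h))

lemma IsTest.gradient_zero (hu : IsTest Ω u) {x : Plane} (hx : x ∉ Ω) : gradient u x = 0 :=
  hu.gradient_eq_zero fun h => hx (hu.2.2 h)

lemma IsTest.integrable_sq (hu : IsTest Ω u) (μ : Measure Plane) [IsFiniteMeasureOnCompacts μ] :
    Integrable (fun x => ‖gradient u x‖ ^ 2) μ :=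
  hu.continuous_sq.integrable_of_hasCompactSupport hu.hasCompactSupport_sq

lemma IsTest.integrable_norm (hu : IsTest Ω u) (μ : Measure Plane) [IsFiniteMeasureOnCompacts μ] :
    Integrable (fun x => ‖gradient u x‖) μ :=
  hu.continuous_norm_gradient.integrable_of_hasCompactSupport hu.hasCompactSupport_norm

lemma IsTest.integrable_usq (hu : IsTest Ω u) (μ : Measure Plane) [IsFiniteMeasureOnCompacts μ] :
    Integrable (fun x => u x ^ 2) μ :=
  (hu.continuous.pow 2).integrable_of_hasCompactSupport hu.hasCompactSupport_usq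

lemma IsTest.dir_eq (hu : IsTest Ω u) : Dir Ω u = ∫ x, ‖gradient u x‖ ^ 2 :=
  setIntegral_eq_integral_of_forall_compl_eq_zero fun x hx => by simp [hu.gradient_zero hx]

lemma IsTest.l2_eq (hu : IsTest Ω u) : L2 Ω u = ∫ x, u x ^ 2 :=
  setIntegral_eq_integral_of_forall_compl_eq_zero fun x hx => by simp [hu.eq_zero hx]

lemma dir_nonneg : 0 ≤ Dir Ω u := integral_nonneg fun _ => by positivity
lemma sti_nonneg {μ : Measure Plane} : 0 ≤ Sti μ u := integral_nonneg fun _ => by positivity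
lemma l2_nonneg : 0 ≤ L2 Ω u := integral_nonneg fun _ => by positivity

lemma IsTest.l2_pos (hu : IsTest Ω u) (h0 : u ≠ 0) : 0 < L2 Ω u := by
  rw [hu.l2_eq]
  obtain ⟨x, hx⟩ : ∃ x, u x ≠ 0 := by
    by_contra hcon
    push Not at hcon
    exact h0 (funext hcon)
  exact Continuous.integral_pos_of_hasCompactSupport_nonneg_nonzero
    (f := fun x => u x ^ 2) (x := x) (hu.continuous.pow 2)
    hu.hasCompactSupport_usq (fun y => sq_nonneg (u y)) (by simpa using hx)

variable {m : ℝ} {μ : Measure Plane}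

lemma rayleigh_nonneg (hm : 0 ≤ m) : 0 ≤ rayleigh Ω m μ u := by
  rw [rayleigh_eq]
  exact div_nonneg (add_nonneg dir_nonneg (mul_nonneg hm sti_nonneg)) l2_nonneg

lemma bddBelow_set (hm : 0 ≤ m) :
    BddBelow {r : ℝ | ∃ u : Plane → ℝ, IsTest Ω u ∧ u ≠ 0 ∧ r = rayleigh Ω m μ u} :=
  ⟨0, by rintro r ⟨u, -, -, rfl⟩; exact rayleigh_nonneg hm⟩

lemma lambda1_le (hm : 0 ≤ m) (hu : IsTest Ω u) (h0 : u ≠ 0) :
    lambda1 Ω m μ ≤ rayleigh Ω m μ u :=
  csInf_le (bddBelow_set hm) ⟨u, hu, h0, rfl⟩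

lemma lambda1_mul_le (hm : 0 ≤ m) (hu : IsTest Ω u) :
    lambda1 Ω m μ * L2 Ω u ≤ Dir Ω u + m * Sti μ u := by
  by_cases h0 : u = 0
  · have : L2 Ω u = 0 := by rw [h0]; simp [L2]
    rw [this, mul_zero]
    exact add_nonneg dir_nonneg (mul_nonneg hm sti_nonneg)
  · have h1 := lambda1_le (μ := μ) hm hu h0
    rw [rayleigh_eq, le_div_iff₀ (hu.l2_pos h0)] at h1
    exact h1

lemma exists_test_ne_zero (hΩ : IsOpen Ω) (hne : Ω.Nonempty) :
    ∃ u : Plane → ℝ, IsTest Ω u ∧ u ≠ 0 := by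
  obtain ⟨x, hx⟩ := hne
  obtain ⟨r, hr, hball⟩ := Metric.isOpen_iff.1 hΩ x hx
  let f : ContDiffBump x := ⟨r / 4, r / 2, by linarith, by linarith⟩
  refine ⟨f, ⟨f.contDiff, f.hasCompactSupport, ?_⟩, ?_⟩
  · rw [f.tsupport_eq]
    exact (closedBall_subset_ball (by show r / 2 < r; linarith)).trans hball
  · intro h
    have h1 : f x = 1 := f.one_of_mem_closedBall (by simp [f.rIn_pos.le])
    have h2 := congrFun h x
    simp [h1] at h2

lemma nonempty_set (hΩ : IsOpen Ω) (hne : Ω.Nonempty) :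
    {r : ℝ | ∃ u : Plane → ℝ, IsTest Ω u ∧ u ≠ 0 ∧ r = rayleigh Ω m μ u}.Nonempty := by
  obtain ⟨u, hu, h0⟩ := exists_test_ne_zero hΩ hne
  exact ⟨_, u, hu, h0, rfl⟩

lemma exists_of_lambda1_lt (hΩ : IsOpen Ω) (hne : Ω.Nonempty) {r : ℝ}
    (h : lambda1 Ω m μ < r) : ∃ u, IsTest Ω u ∧ u ≠ 0 ∧ rayleigh Ω m μ u < r := by
  obtain ⟨r', ⟨u, hu, h0, rfl⟩, hr⟩ := exists_lt_of_csInf_lt (nonempty_set hΩ hne) h
  exact ⟨u, hu, h0, hr⟩

lemma le_lambda1 (hΩ : IsOpen Ω) (hne : Ω.Nonempty) {c : ℝ}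
    (h : ∀ u, IsTest Ω u → c * L2 Ω u ≤ Dir Ω u + m * Sti μ u) : c ≤ lambda1 Ω m μ := by
  apply le_csInf (nonempty_set hΩ hne)
  rintro r ⟨u, hu, h0, rfl⟩
  rw [rayleigh_eq, le_div_iff₀ (hu.l2_pos h0)]
  exact h u hu

lemma IsTest.sti_mono (hu : IsTest Ω u) {ν : Measure Plane} [IsFiniteMeasureOnCompacts ν]
    (h : μ ≤ ν) : Sti μ u ≤ Sti ν u :=
  integral_mono_measure h (Eventually.of_forall fun _ => by positivity) (hu.integrable_sq ν)

lemma lambda1_mono (hΩ : IsOpen Ω) (hne : Ω.Nonempty) (hm : 0 ≤ m) {ν : Measure Plane}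
    [IsFiniteMeasureOnCompacts ν] (h : μ ≤ ν) : lambda1 Ω m μ ≤ lambda1 Ω m ν := by
  apply le_lambda1 hΩ hne
  intro u hu
  refine (lambda1_mul_le hm hu).trans ?_
  gcongr
  exact hu.sti_mono h

lemma IsTest.const_mul (hu : IsTest Ω u) (c : ℝ) : IsTest Ω fun x => c * u x := by
  refine ⟨contDiff_const.mul hu.1, hu.2.1.mul_left, ?_⟩
  refine (tsupport_mul_subset_right (f := fun _ => c)).trans hu.2.2

lemma gradient_const_mul (hu : IsTest Ω u) (c : ℝ) (x : Plane) :
    ‖gradient (fun x => c * u x) x‖ = |c| * ‖gradient u x‖ := by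
  rw [norm_gradient, norm_gradient, fderiv_const_mul hu.differentiable.differentiableAt,
    norm_smul, Real.norm_eq_abs]

lemma exists_normalized (hΩ : IsOpen Ω) (hne : Ω.Nonempty) {r : ℝ}
    (h : lambda1 Ω m μ < r) : ∃ u, IsTest Ω u ∧ L2 Ω u = 1 ∧ Dir Ω u + m * Sti μ u < r := by
  obtain ⟨u, hu, h0, hr⟩ := exists_of_lambda1_lt hΩ hne h
  have hN := hu.l2_pos h0
  set c : ℝ := (Real.sqrt (L2 Ω u))⁻¹ with hc
  have hc2 : c ^ 2 = (L2 Ω u)⁻¹ := by
    rw [hc, inv_pow, Real.sq_sqrt hN.le]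
  refine ⟨fun x => c * u x, hu.const_mul c, ?_, ?_⟩
  · have : L2 Ω (fun x => c * u x) = c ^ 2 * L2 Ω u := by
      unfold L2
      rw [← integral_const_mul]
      congr 1; ext x; ring
    rw [this, hc2, inv_mul_cancel₀ hN.ne']
  · have h1 : Dir Ω (fun x => c * u x) = c ^ 2 * Dir Ω u := by
      unfold Dir
      rw [← integral_const_mul]
      congr 1; ext x
      rw [gradient_const_mul hu, mul_pow, sq_abs]
    have h2 : Sti μ (fun x => c * u x) = c ^ 2 * Sti μ u := by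
      unfold Sti
      rw [← integral_const_mul]
      congr 1; ext x
      rw [gradient_const_mul hu, mul_pow, sq_abs]
    rw [h1, h2, hc2]
    rw [rayleigh_eq] at hr
    calc (L2 Ω u)⁻¹ * Dir Ω u + m * ((L2 Ω u)⁻¹ * Sti μ u)
        = (Dir Ω u + m * Sti μ u) / L2 Ω u := by ring
      _ < r := hr

end Pool.Agent.Helper46.Stiff
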