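import Pool.Agent.Helper46.Stiff.Golab

/-! # The admissible class is compact -/

open MeasureTheory Set Metric Filter Topology
open scoped ENNReal NNReal

namespace Pool.Agent.Helper46.Stiff

variable {E : Type*} [MetricSpace E] [MeasurableSpace E] [BorelSpace E]
  [SecondCountableTopology E] {K : Set E} {C : ℝ≥0}

lemma mem_closure_freq {μ : FiniteMeasure E} (hμ : μ ∈ closure (Adm K C)) :
    ∃ᶠ ν : FiniteMeasure E in 𝓝 μ, ν ∈ Adm K C := mem_closure_iff_frequently.1 hμ

lemma closure_base (hK : IsCompact K) {μ : FiniteMeasure E} (hμ : μ ∈ closure (Adm K C)) :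
    μ.mass ≤ C ∧ (μ : Measure E) Kᶜ = 0 := by
  have hcl : IsClosed {μ : FiniteMeasure E | μ.mass ≤ C ∧ (μ : Measure E) Kᶜ = 0} :=
    (isCompact_base hK C).isClosed
  have hsub : Adm K C ⊆ {μ : FiniteMeasure E | μ.mass ≤ C ∧ (μ : Measure E) Kᶜ = 0} :=
    fun ν hν => hν.1
  exact closure_minimal hsub hcl hμ

theorem closure_preconnected (hK : IsCompact K) {μ : FiniteMeasure E}
    (hμ : μ ∈ closure (Adm K C)) : IsPreconnected (μ : Measure E).support := by
  rcases (μ : Measure E).support.subsingleton_or_nontrivial with hs | hnt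
  · exact hs.isPreconnected
  have hb := closure_base hK hμ
  have hS := isCompact_support hK hb.2
  rw [isPreconnected_closed_iff]
  intro T T' hT hT' hcov hne hne'
  by_contra hcon
  rw [not_nonempty_iff_eq_empty] at hcon
  set S := (μ : Measure E).support with hSdef
  have hd : Disjoint (S ∩ T) (S ∩ T') := by
    rw [Set.disjoint_iff_inter_eq_empty, ← inter_inter_distrib_left]; exact hcon
  obtain ⟨η, hη, hdis⟩ := hd.exists_thickenings (hS.inter_right hT) (hS.isClosed.inter hT')
  have hev1 := eventually_near_support (K := K) (C := C) hK hnt hη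
  have hev2 := eventually_support_near hK hb.2 hη
  obtain ⟨ν, hνA, hν1, hν2⟩ := ((mem_closure_freq hμ).and_eventually (hev1.and hev2)).exists
  have h1 := hν1 hνA
  have hp := hνA.2.1
  obtain ⟨x, hx⟩ := hne
  obtain ⟨x', hx'⟩ := hne'
  have key : ∀ y ∈ (ν : Measure E).support, y ∈ thickening η (S ∩ T) ∪ thickening η (S ∩ T') := by
    intro y hy
    obtain ⟨z, hz, hyz⟩ := mem_thickening_iff.1 (h1 hy)
    rcases hcov hz with h | h
    · exact Or.inl (mem_thickening_iff.2 ⟨z, ⟨hz, h⟩, hyz⟩)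
    · exact Or.inr (mem_thickening_iff.2 ⟨z, ⟨hz, h⟩, hyz⟩)
  have hn1 : ((ν : Measure E).support ∩ thickening η (S ∩ T)).Nonempty := by
    obtain ⟨z, hz, hxz⟩ := mem_thickening_iff.1 (hν2 hx.1)
    exact ⟨z, hz, mem_thickening_iff.2 ⟨x, hx, by rwa [dist_comm]⟩⟩
  have hn2 : ((ν : Measure E).support ∩ thickening η (S ∩ T')).Nonempty := by
    obtain ⟨z, hz, hxz⟩ := mem_thickening_iff.1 (hν2 hx'.1)
    exact ⟨z, hz, mem_thickening_iff.2 ⟨x', hx', by rwa [dist_comm]⟩⟩
  obtain ⟨y, -, hy1, hy2⟩ := hp _ _ isOpen_thickening isOpen_thickening key hn1 hn2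
  exact Set.disjoint_left.1 hdis hy1 hy2

lemma adm_length_le {ν : FiniteMeasure E} (hν : ν ∈ Adm K C) {B : Set E} (hB : MeasurableSet B) :
    μH[1] ((ν : Measure E).support ∩ B) ≤ (ν : Measure E) B := by
  calc μH[1] ((ν : Measure E).support ∩ B)
      = (μH[1] : Measure E).restrict (ν : Measure E).support B := by
        rw [Measure.restrict_apply hB, inter_comm]
    _ ≤ (ν : Measure E) B := hν.2.2 B

lemma adm_length_le_mass {ν : FiniteMeasure E} (hν : ν ∈ Adm K C) :
    μH[1] ((ν : Measure E).support) ≤ C := by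
  have := adm_length_le hν MeasurableSet.univ
  rw [inter_univ] at this
  refine this.trans ?_
  rw [← FiniteMeasure.ennreal_mass]
  exact_mod_cast hν.1.1

lemma cover_estimate (hK : IsCompact K) {μ : FiniteMeasure E} (hμ : μ ∈ closure (Adm K C))
    {K' : Set E} (hK'S : K' ⊆ (μ : Measure E).support) {ρ : ℝ} (hρ : 0 < ρ) (n : ℕ) :
    ∃ 𝒬 : Finset (Set E), (∀ A ∈ 𝒬, ediam A ≤ ENNReal.ofReal (6 * (ρ / (n + 6)))) ∧
      K' ⊆ ⋃ A ∈ 𝒬, A ∧ ∑ A ∈ 𝒬, ediam A ≤
        (μ : Measure E) (cthickening ρ K') + ENNReal.ofReal (2 / (n + 1)) := by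
  classical
  set δ : ℝ := ρ / (n + 6) with hδdef
  have hn6 : (0 : ℝ) < n + 6 := by positivity
  have hδ : 0 < δ := by positivity
  have h6δ : 6 * δ ≤ ρ := by
    rw [hδdef]
    rw [← mul_div_assoc, div_le_iff₀ hn6]
    nlinarith
  obtain ⟨k, hk⟩ := exists_nat_ge ((C : ℝ) / (δ / 2))
  have hk' : (C : ℝ≥0∞) ≤ k * ENNReal.ofReal (δ / 2) := by
    rw [div_le_iff₀ (half_pos hδ)] at hk
    calc (C : ℝ≥0∞) = ENNReal.ofReal (C : ℝ) := by simp
      _ ≤ ENNReal.ofReal (k * (δ / 2)) := ENNReal.ofReal_le_ofReal hk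
      _ = k * ENNReal.ofReal (δ / 2) := by
        rw [ENNReal.ofReal_mul (by positivity)]; simp
  set N : ℕ := bnd k with hN
  have hN1 : 1 ≤ N := one_le_bnd k
  have hNpos : (0 : ℝ) < N := by exact_mod_cast hN1
  set η : ℝ := min δ (1 / (2 * N * (n + 1))) with hηdef
  have hη : 0 < η := by
    rw [hηdef]; positivity
  have hηδ : η ≤ δ := min_le_left _ _
  have hηN : (N : ℝ) * (2 * η) ≤ 1 / (n + 1) := by
    have h1 : η ≤ 1 / (2 * N * (n + 1)) := min_le_right _ _
    calc (N : ℝ) * (2 * η) ≤ N * (2 * (1 / (2 * N * (n + 1)))) := by gcongr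
      _ = 1 / (n + 1) := by field_simp
  have hb := closure_base hK hμ
  have hev1 := eventually_support_near hK hb.2 hη
  have hlt : (μ : Measure E) (cthickening ρ K') <
      (μ : Measure E) (cthickening ρ K') + ENNReal.ofReal (1 / (n + 1)) :=
    ENNReal.lt_add_right (measure_ne_top _ _) (by
      rw [Ne, ENNReal.ofReal_eq_zero, not_le]; positivity)
  have hev2 := eventually_closed_lt μ isClosed_cthickening hlt
  obtain ⟨ν, hνA, hν1, hν2⟩ := ((mem_closure_freq hμ).and_eventually (hev1.and hev2)).exists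
  set X := (ν : Measure E).support with hX
  have hXc : IsCompact X := isCompact_support hK hνA.1.2
  obtain ⟨𝒬, hQ1, hQ2, hQ3, hQ4⟩ := pieces hδ k hXc hνA.2.1 ((adm_length_le_mass hνA).trans hk')
  set 𝒬' := 𝒬.filter (fun A => (A ∩ thickening η K').Nonempty) with hQ'
  have hQ'mem : ∀ A ∈ 𝒬', A ∈ 𝒬 ∧ (A ∩ thickening η K').Nonempty := fun A hA => by
    simpa [hQ'] using hA
  have hin : ∀ A ∈ 𝒬', A ⊆ cthickening ρ K' := by
    intro A hA
    obtain ⟨hA1, a, haA, haK⟩ := hQ'mem A hA
    obtain ⟨y, hy, hay⟩ := mem_thickening_iff.1 haK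
    intro b hb
    have h1 : edist a b ≤ ENNReal.ofReal (4 * δ) :=
      (Metric.edist_le_ediam_of_mem haA hb).trans (hQ2 A hA1).2.2.2
    rw [edist_dist, ENNReal.ofReal_le_ofReal_iff (by positivity)] at h1
    refine mem_cthickening_of_dist_le b y ρ K' hy ?_
    calc dist b y ≤ dist b a + dist a y := dist_triangle _ _ _
      _ ≤ 4 * δ + δ := by
        rw [dist_comm b a]
        exact add_le_add h1 (hay.le.trans hηδ)
      _ ≤ ρ := by linarith
  have hdiamth : ∀ A : Set E, ediam (thickening η A) ≤ ediam A + ENNReal.ofReal (2 * η) := by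
    intro A
    have := Metric.ediam_thickening_le (s := A) (ε := ⟨η, hη.le⟩)
    refine this.trans ?_
    gcongr
    rw [ENNReal.ofReal_mul (by norm_num)]
    gcongr
    · simp
    · rw [ENNReal.ofReal, Real.toNNReal_of_nonneg hη.le]; exact le_rfl
  refine ⟨𝒬'.image (thickening η), ?_, ?_, ?_⟩
  · intro A hA
    obtain ⟨B, hB, rfl⟩ := Finset.mem_image.1 hA
    calc ediam (thickening η B) ≤ ediam B + ENNReal.ofReal (2 * η) := hdiamth B
      _ ≤ ENNReal.ofReal (4 * δ) + ENNReal.ofReal (2 * δ) := by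
          gcongr
          exact (hQ2 B (hQ'mem B hB).1).2.2.2
      _ = ENNReal.ofReal (6 * δ) := by
          rw [← ENNReal.ofReal_add (by positivity) (by positivity)]; congr 1; ring
  · intro y hy
    obtain ⟨x, hx, hyx⟩ := mem_thickening_iff.1 (hν1 (hK'S hy))
    have := hQ3 hx
    simp only [mem_iUnion] at this
    obtain ⟨A, hA, hxA⟩ := this
    simp only [mem_iUnion, Finset.mem_image]
    refine ⟨thickening η A, ⟨A, ?_, rfl⟩, mem_thickening_iff.2 ⟨x, hxA, hyx⟩⟩
    rw [hQ']
    exact Finset.mem_filter.2 ⟨hA, x, hxA, mem_thickening_iff.2 ⟨y, hy, by rwa [dist_comm]⟩⟩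
  · have hsum1 : ∑ A ∈ 𝒬'.image (thickening η), ediam A ≤ ∑ A ∈ 𝒬', ediam (thickening η A) :=
      Finset.sum_image_le_of_nonneg (fun _ _ => zero_le)
    have hsum2 : ∑ A ∈ 𝒬', ediam A ≤ (ν : Measure E) (cthickening ρ K') := by
      calc ∑ A ∈ 𝒬', ediam A ≤ ∑ A ∈ 𝒬', μH[1] (A ∩ cthickening ρ K') := by
            apply Finset.sum_le_sum
            intro A hA
            rw [inter_eq_self_of_subset_left (hin A hA)]
            exact ediam_le_hausdorff (hQ2 A (hQ'mem A hA).1).2.1
        _ ≤ ∑ A ∈ 𝒬, μH[1] (A ∩ cthickening ρ K') :=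
            Finset.sum_le_sum_of_subset (Finset.filter_subset _ _)
        _ ≤ μH[1] (X ∩ cthickening ρ K') := hQ4 _ isClosed_cthickening.measurableSet
        _ ≤ _ := adm_length_le hνA isClosed_cthickening.measurableSet
    have hcard : (𝒬'.card : ℝ≥0∞) * ENNReal.ofReal (2 * η) ≤ ENNReal.ofReal (1 / (n + 1)) := by
      calc (𝒬'.card : ℝ≥0∞) * ENNReal.ofReal (2 * η) ≤ (N : ℝ≥0∞) * ENNReal.ofReal (2 * η) := by
            gcongr
            exact (Finset.card_filter_le _ _).trans hQ1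
        _ = ENNReal.ofReal (N * (2 * η)) := by
            rw [ENNReal.ofReal_mul (by positivity)]; simp
        _ ≤ _ := ENNReal.ofReal_le_ofReal hηN
    calc ∑ A ∈ 𝒬'.image (thickening η), ediam A ≤ ∑ A ∈ 𝒬', ediam (thickening η A) := hsum1
      _ ≤ ∑ A ∈ 𝒬', (ediam A + ENNReal.ofReal (2 * η)) := Finset.sum_le_sum fun A _ => hdiamth A
      _ = ∑ A ∈ 𝒬', ediam A + 𝒬'.card * ENNReal.ofReal (2 * η) := by
          rw [Finset.sum_add_distrib]; simp
      _ ≤ (ν : Measure E) (cthickening ρ K') + ENNReal.ofReal (1 / (n + 1)) := by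
          gcongr
      _ ≤ ((μ : Measure E) (cthickening ρ K') + ENNReal.ofReal (1 / (n + 1))) +
            ENNReal.ofReal (1 / (n + 1)) := by gcongr
      _ = _ := by
          rw [add_assoc, ← ENNReal.ofReal_add (by positivity) (by positivity)]
          congr 2; ring

theorem closure_length_le (hK : IsCompact K) {μ : FiniteMeasure E} (hμ : μ ∈ closure (Adm K C))
    {K' : Set E} (hK'c : IsCompact K') (hK'S : K' ⊆ (μ : Measure E).support) :
    μH[1] K' ≤ (μ : Measure E) K' := by
  have hρ : ∀ ρ : ℝ, 0 < ρ → μH[1] K' ≤ (μ : Measure E) (cthickening ρ K') := by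
    intro ρ hρ
    choose 𝒬 h1 h2 h3 using cover_estimate hK hμ hK'S hρ
    have hlim : Tendsto (fun n : ℕ => ENNReal.ofReal (6 * (ρ / (n + 6)))) atTop (𝓝 0) := by
      rw [← ENNReal.ofReal_zero]
      apply ENNReal.tendsto_ofReal
      have : Tendsto (fun n : ℕ => ρ / ((n : ℝ) + 6)) atTop (𝓝 0) :=
        tendsto_const_nhds.div_atTop
          (tendsto_atTop_add_const_right _ _ tendsto_natCast_atTop_atTop)
      simpa using this.const_mul 6
    have h4 := Measure.hausdorffMeasure_le_liminf_sum (X := E) (ι := fun n => ↥(𝒬 n)) 1 K'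
      (fun n : ℕ => ENNReal.ofReal (6 * (ρ / (n + 6)))) hlim (fun n A => (A : Set E))
      (Eventually.of_forall fun n A => h1 n A A.2)
      (Eventually.of_forall fun n => by
        intro y hy
        have := h2 n hy
        simp only [mem_iUnion] at this ⊢
        obtain ⟨A, hA, hyA⟩ := this
        exact ⟨⟨A, hA⟩, hyA⟩)
    refine h4.trans ?_
    have hlim2 : Tendsto (fun n : ℕ => (μ : Measure E) (cthickening ρ K') +
        ENNReal.ofReal (2 / ((n : ℝ) + 1))) atTop (𝓝 ((μ : Measure E) (cthickening ρ K') + 0)) := by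
      apply Tendsto.const_add
      rw [← ENNReal.ofReal_zero]
      apply ENNReal.tendsto_ofReal
      exact tendsto_const_nhds.div_atTop
          (tendsto_atTop_add_const_right _ _ tendsto_natCast_atTop_atTop)
    rw [add_zero] at hlim2
    rw [← hlim2.liminf_eq]
    refine liminf_le_liminf (Eventually.of_forall fun n => ?_)
    refine le_trans (le_of_eq ?_) (h3 n)
    simp only [ENNReal.rpow_one]
    exact Finset.sum_coe_sort (𝒬 n) (fun A => ediam A)
  have hlim := tendsto_measure_cthickening_of_isClosed (μ := (μ : Measure E)) (s := K')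
    ⟨1, one_pos, measure_ne_top _ _⟩ hK'c.isClosed
  have hlim' : Tendsto (fun ρ => (μ : Measure E) (cthickening ρ K')) (𝓝[>] 0)
      (𝓝 ((μ : Measure E) K')) := hlim.mono_left nhdsWithin_le_nhds
  exact ge_of_tendsto hlim' (eventually_mem_nhdsWithin.mono fun ρ hρ' => hρ ρ hρ')

theorem isClosed_adm (hK : IsCompact K) : IsClosed (Adm K C) := by
  apply isClosed_of_closure_subset
  intro μ hμ
  have hb := closure_base hK hμ
  refine ⟨hb, closure_preconnected hK hμ, ?_⟩
  set S := (μ : Measure E).support with hS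
  have hSc : IsCompact S := isCompact_support hK hb.2
  have hfin : μH[1] S ≠ ∞ :=
    ne_top_of_le_ne_top (measure_ne_top (μ : Measure E) S) (closure_length_le hK hμ hSc subset_rfl)
  haveI : IsFiniteMeasure ((μH[1] : Measure E).restrict S) :=
    ⟨by rw [Measure.restrict_apply_univ]; exact hfin.lt_top⟩
  rw [Measure.le_iff]
  intro B hB
  rw [hB.measure_eq_iSup_isClosed_of_ne_top (measure_ne_top _ _)]
  refine iSup₂_le fun F hFB => iSup_le fun hF => ?_
  rw [Measure.restrict_apply hF.measurableSet]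
  calc μH[1] (F ∩ S) ≤ (μ : Measure E) (F ∩ S) :=
        closure_length_le hK hμ (hSc.inter_left hF) inter_subset_right
    _ ≤ (μ : Measure E) B := measure_mono (inter_subset_left.trans hFB)

theorem isCompact_adm (hK : IsCompact K) : IsCompact (Adm K C) :=
  (isCompact_base hK C).of_isClosed_subset (isClosed_adm hK) fun _ hν => hν.1

end Pool.Agent.Helper46.Stiff
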