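import Mathlib

/-! # Components of closed pieces of a continuum meet the complementary piece -/

open Set Topology

namespace Pool.Agent.Helper46.Stiff

variable {E : Type*} [TopologicalSpace E] [T2Space E]

/-- If a preconnected set `X` is the union of a closed nonempty set `Y` and a compact set `W`, then
every component of `W` meets `Y`. -/
theorem component_meets {X Y W : Set E} (hX : IsPreconnected X) (hW : IsCompact W)
    (hY : IsClosed Y) (hYne : Y.Nonempty) (hXeq : X = Y ∪ W) {w : E} (hw : w ∈ W) :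
    (connectedComponentIn W w ∩ Y).Nonempty := by
  by_contra hemp
  rw [not_nonempty_iff_eq_empty] at hemp
  haveI : CompactSpace W := isCompact_iff_compactSpace.1 hW
  set Y' : Set W := Subtype.val ⁻¹' Y with hY'
  have hY'c : IsClosed Y' := hY.preimage continuous_subtype_val
  have hcomp := connectedComponent_eq_iInter_isClopen (⟨w, hw⟩ : W)
  have hdisj : Y' ∩ ⋂ s : { s : Set W // IsClopen s ∧ (⟨w, hw⟩ : W) ∈ s }, (s : Set W) = ∅ := by
    rw [← hcomp]
    rw [connectedComponentIn_eq_image hw] at hemp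
    rw [eq_empty_iff_forall_notMem] at hemp ⊢
    rintro ⟨z, hz⟩ ⟨hz1, hz2⟩
    exact hemp z ⟨⟨⟨z, hz⟩, hz2, rfl⟩, hz1⟩
  haveI : Nonempty { s : Set W // IsClopen s ∧ (⟨w, hw⟩ : W) ∈ s } :=
    ⟨⟨univ, isClopen_univ, mem_univ _⟩⟩
  obtain ⟨⟨D, hD, hwD⟩, hYD⟩ := hY'c.isCompact.elim_directed_family_closed
    (fun s : { s : Set W // IsClopen s ∧ (⟨w, hw⟩ : W) ∈ s } => (s : Set W))
    (fun s => s.2.1.isClosed) hdisj (by
      rintro ⟨s, hs, hws⟩ ⟨t, ht, hwt⟩
      exact ⟨⟨s ∩ t, hs.inter ht, hws, hwt⟩, inter_subset_left, inter_subset_right⟩)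
  simp only at hYD
  have hD1 : IsCompact (Subtype.val '' D : Set E) :=
    hD.isClosed.isCompact.image continuous_subtype_val
  have hD2 : IsCompact (Subtype.val '' Dᶜ : Set E) :=
    hD.compl.isClosed.isCompact.image continuous_subtype_val
  obtain ⟨y, hy⟩ := hYne
  have h := isPreconnected_closed_iff.1 hX (Subtype.val '' D) (Y ∪ Subtype.val '' Dᶜ)
    hD1.isClosed (hY.union hD2.isClosed) (by
      rw [hXeq]
      rintro z (hz | hz)
      · exact Or.inr (Or.inl hz)
      · by_cases hzD : (⟨z, hz⟩ : W) ∈ D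
        · exact Or.inl ⟨⟨z, hz⟩, hzD, rfl⟩
        · exact Or.inr (Or.inr ⟨⟨z, hz⟩, hzD, rfl⟩))
    ⟨w, by rw [hXeq]; exact Or.inr hw, ⟨⟨w, hw⟩, hwD, rfl⟩⟩
    ⟨y, by rw [hXeq]; exact Or.inl hy, Or.inl hy⟩
  obtain ⟨z, -, ⟨⟨z', hz'D, rfl⟩, hz2⟩⟩ := h
  rcases hz2 with hz2 | ⟨z'', hz''D, hz''⟩
  · have : z' ∈ Y' ∩ D := ⟨hz2, hz'D⟩
    rw [hYD] at this
    exact this
  · exact hz''D (Subtype.val_injective hz'' ▸ hz'D)

lemma isClosed_connectedComponentIn {W : Set E} (hW : IsClosed W) (w : E) :
    IsClosed (connectedComponentIn W w) := by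
  by_cases hw : w ∈ W
  · apply isClosed_of_closure_subset
    apply (isPreconnected_connectedComponentIn.closure).subset_connectedComponentIn
    · exact subset_closure (mem_connectedComponentIn hw)
    · exact closure_minimal (connectedComponentIn_subset W w) hW
  · rw [connectedComponentIn_eq_empty hw]; exact isClosed_empty

lemma isCompact_connectedComponentIn {W : Set E} (hW : IsCompact W) (w : E) :
    IsCompact (connectedComponentIn W w) :=
  hW.of_isClosed_subset (isClosed_connectedComponentIn hW.isClosed w)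
    (connectedComponentIn_subset W w)

/-- If every component of `W` meets the finite set `F`, then `W` is the union of the components of
the points of `F`. -/
lemma eq_biUnion_component {W : Set E} {F : Set E} (hFW : F ⊆ W)
    (h : ∀ w ∈ W, (connectedComponentIn W w ∩ F).Nonempty) :
    W = ⋃ p ∈ F, connectedComponentIn W p := by
  apply subset_antisymm
  · intro w hw
    obtain ⟨p, hp1, hp2⟩ := h w hw
    simp only [mem_iUnion]
    refine ⟨p, hp2, ?_⟩
    rw [← connectedComponentIn_eq hp1]
    exact mem_connectedComponentIn hw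
  · exact iUnion₂_subset fun p _ => connectedComponentIn_subset W p

lemma disjoint_components {W : Set E} {p q : E}
    (h : connectedComponentIn W p ≠ connectedComponentIn W q) :
    Disjoint (connectedComponentIn W p) (connectedComponentIn W q) := by
  rw [Set.disjoint_left]
  intro z hz1 hz2
  exact h ((connectedComponentIn_eq hz1).trans (connectedComponentIn_eq hz2).symm)

end Pool.Agent.Helper46.Stiff
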