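import Mathlib

/-! # Continua of finite length: density bounds and generic spheres -/

open MeasureTheory Set Metric Filter Topology
open scoped ENNReal NNReal

namespace Pool.Agent.Helper46.Stiff

variable {E : Type*} [MetricSpace E] [MeasurableSpace E] [BorelSpace E]

/-- A preconnected set containing `y` and a point at distance at least `ρ` from `y` has length at
least `ρ` in the closed ball of radius `ρ` around `y`. -/
lemma ofReal_le_hausdorff {X : Set E} (hX : IsPreconnected X) {y z : E} (hy : y ∈ X) (hz : z ∈ X)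
    {ρ : ℝ} (hρ : ρ ≤ dist y z) :
    ENNReal.ofReal ρ ≤ μH[1] (X ∩ closedBall y ρ) := by
  rcases le_total ρ 0 with h0 | h0
  · simp [ENNReal.ofReal_of_nonpos h0]
  have hf : LipschitzWith 1 (fun x : E => dist y x) := LipschitzWith.dist_right y
  have himg : IsPreconnected ((fun x : E => dist y x) '' X) :=
    hX.image _ hf.continuous.continuousOn
  have hsub : Icc 0 ρ ⊆ (fun x : E => dist y x) '' (X ∩ closedBall y ρ) := by
    intro t ht
    have h1 : t ∈ (fun x : E => dist y x) '' X := by
      apply himg.Icc_subset (a := 0) (b := dist y z) ⟨y, hy, by simp⟩ ⟨z, hz, rfl⟩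
      exact ⟨ht.1, ht.2.trans hρ⟩
    obtain ⟨x, hx, rfl⟩ := h1
    refine ⟨x, ⟨hx, ?_⟩, rfl⟩
    rw [mem_closedBall, dist_comm]
    exact ht.2
  calc ENNReal.ofReal ρ = volume (Icc 0 ρ) := by simp
    _ ≤ volume ((fun x : E => dist y x) '' (X ∩ closedBall y ρ)) := measure_mono hsub
    _ = μH[1] ((fun x : E => dist y x) '' (X ∩ closedBall y ρ)) := by
        rw [hausdorffMeasure_real]
    _ ≤ ((1 : ℝ≥0) : ℝ≥0∞) ^ (1 : ℝ) * μH[1] (X ∩ closedBall y ρ) :=
        hf.hausdorffMeasure_image_le zero_le_one _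
    _ = μH[1] (X ∩ closedBall y ρ) := by simp

lemma edist_le_hausdorff {X : Set E} (hX : IsPreconnected X) {y z : E} (hy : y ∈ X) (hz : z ∈ X) :
    edist y z ≤ μH[1] X := by
  rw [edist_dist]
  exact (ofReal_le_hausdorff hX hy hz le_rfl).trans (measure_mono inter_subset_left)

lemma ediam_le_hausdorff {X : Set E} (hX : IsPreconnected X) : ediam X ≤ μH[1] X :=
  Metric.ediam_le fun _ hy _ hz => edist_le_hausdorff hX hy hz

end Pool.Agent.Helper46.Stiff
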