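import Mathlib

/-! # The stiffener problem: definitions -/

open MeasureTheory Set Metric Filter Topology
open scoped ENNReal NNReal ContDiff

namespace Pool.Agent.Helper46.Stiff

/-- The Euclidean plane. -/
abbrev Plane := EuclideanSpace ℝ (Fin 2)

/-- `u ∈ C_c^∞(Ω)`. -/
def IsTest (Ω : Set Plane) (u : Plane → ℝ) : Prop :=
  ContDiff ℝ ∞ u ∧ HasCompactSupport u ∧ tsupport u ⊆ Ω

/-- The Rayleigh quotient
`(∫_Ω |∇u|² dx + m ∫ |∇u|² dμ) / ∫_Ω u² dx`. -/
noncomputable def rayleigh (Ω : Set Plane) (m : ℝ) (μ : Measure Plane) (u : Plane → ℝ) : ℝ :=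
  ((∫ x in Ω, ‖gradient u x‖ ^ 2) + m * ∫ x, ‖gradient u x‖ ^ 2 ∂μ) / ∫ x in Ω, u x ^ 2

/-- The first eigenvalue `λ₁(μ)`: infimum of the Rayleigh quotient over nonzero `u ∈ C_c^∞(Ω)`. -/
noncomputable def lambda1 (Ω : Set Plane) (m : ℝ) (μ : Measure Plane) : ℝ :=
  sInf {r : ℝ | ∃ u : Plane → ℝ, IsTest Ω u ∧ u ≠ 0 ∧ r = rayleigh Ω m μ u}

/-- The admissible class `𝒜^c_L`: finite Borel measures `μ` supported in `closure Ω`, of mass at
most `L`, whose support `S` is connected (the zero measure, with empty support, is allowed) and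
which satisfy `μ ≥ ℋ¹ ⌞ S`. -/
structure Admissible (Ω : Set Plane) (L : ℝ) (μ : Measure Plane) : Prop where
  finite : IsFiniteMeasure μ
  supported : μ (closure Ω)ᶜ = 0
  mass : μ univ ≤ ENNReal.ofReal L
  connected : IsPreconnected μ.support
  density : (μH[1] : Measure Plane).restrict μ.support ≤ μ

/-- `μ` is a maximiser of the relaxed connected problem (P). -/
def IsMaximiser (Ω : Set Plane) (m L : ℝ) (μ : Measure Plane) : Prop :=
  Admissible Ω L μ ∧ ∀ ν : Measure Plane, Admissible Ω L ν → lambda1 Ω m ν ≤ lambda1 Ω m μ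

end Pool.Agent.Helper46.Stiff
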