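import Mathlib

/-! # The image of a compact set of finite length under a C¹ function -/

open MeasureTheory Set Metric Filter Topology
open scoped ENNReal NNReal ContDiff

namespace Pool.Agent.Helper46.Stiff

variable {E : Type*} [NormedAddCommGroup E] [NormedSpace ℝ E] [MeasurableSpace E] [BorelSpace E]

lemma volume_image_le_aux {φ : E → ℝ} (hφ : ContDiff ℝ 1 φ) {ε : ℝ≥0} (hε : 0 < ε) {A : Set E}
    (hA : IsCompact A) : volume (φ '' A) ≤ ∫⁻ x in A, (‖fderiv ℝ φ x‖ₑ + 2 * ε) ∂μH[1] := by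
  have hcont : Continuous fun x => fderiv ℝ φ x := hφ.continuous_fderiv one_ne_zero
  have hmeasA : MeasurableSet A := hA.isClosed.measurableSet
  have key : ∃ s' : Set E, MeasurableSet s' ∧ A ⊆ s' ∧ ∀ B : Set E, MeasurableSet B → B ⊆ s' →
      volume (φ '' B) ≤ ∫⁻ x in B, (‖fderiv ℝ φ x‖ₑ + 2 * ε) ∂μH[1] := by
    refine hA.induction_on (p := fun s => ∃ s' : Set E, MeasurableSet s' ∧ s ⊆ s' ∧
      ∀ B : Set E, MeasurableSet B → B ⊆ s' →
      volume (φ '' B) ≤ ∫⁻ x in B, (‖fderiv ℝ φ x‖ₑ + 2 * ε) ∂μH[1]) ?_ ?_ ?_ ?_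
    · refine ⟨∅, MeasurableSet.empty, subset_rfl, fun B _ hB => ?_⟩
      rw [subset_empty_iff.1 hB]; simp
    · rintro s t hst ⟨s', h1, h2, h3⟩
      exact ⟨s', h1, hst.trans h2, h3⟩
    · rintro s t ⟨s', h1, h2, h3⟩ ⟨t', k1, k2, k3⟩
      refine ⟨s' ∪ t', h1.union k1, union_subset_union h2 k2, fun B hB hBs => ?_⟩
      have e1 : B = (B ∩ s') ∪ (B \ s') := (inter_union_sdiff B s').symm
      have hd : Disjoint (B ∩ s') (B \ s') := disjoint_inf_sdiff
      calc volume (φ '' B) = volume (φ '' (B ∩ s') ∪ φ '' (B \ s')) := by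
            rw [← image_union, ← e1]
        _ ≤ volume (φ '' (B ∩ s')) + volume (φ '' (B \ s')) := measure_union_le _ _
        _ ≤ ∫⁻ x in B ∩ s', (‖fderiv ℝ φ x‖ₑ + 2 * ε) ∂μH[1] +
              ∫⁻ x in B \ s', (‖fderiv ℝ φ x‖ₑ + 2 * ε) ∂μH[1] := by
            gcongr
            · exact h3 _ (hB.inter h1) inter_subset_right
            · refine k3 _ (hB.diff h1) ?_
              rintro x ⟨hx1, hx2⟩
              exact (hBs hx1).resolve_left hx2
        _ = ∫⁻ x in B, (‖fderiv ℝ φ x‖ₑ + 2 * ε) ∂μH[1] := by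
            rw [← lintegral_union (hB.diff h1) hd, ← e1]
    · intro x _
      have hnear : ∀ᶠ y in 𝓝 x, ‖fderiv ℝ φ y - fderiv ℝ φ x‖ < ε := by
        have : Tendsto (fun y => ‖fderiv ℝ φ y - fderiv ℝ φ x‖) (𝓝 x) (𝓝 0) := by
          have := (hcont.tendsto x).sub_const (fderiv ℝ φ x)
          rw [sub_self] at this
          simpa using this.norm
        exact this.eventually (gt_mem_nhds (by exact_mod_cast hε))
      obtain ⟨r, hr, hball⟩ := Metric.eventually_nhds_iff_ball.1 hnear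
      refine ⟨ball x r, mem_nhdsWithin_of_mem_nhds (ball_mem_nhds x hr), ball x r,
        isOpen_ball.measurableSet, subset_rfl, fun B hB hBs => ?_⟩
      set c : ℝ≥0 := ‖fderiv ℝ φ x‖₊ + ε with hc
      have hlip : LipschitzOnWith c φ (ball x r) := by
        apply Convex.lipschitzOnWith_of_nnnorm_fderiv_le (𝕜 := ℝ)
          (fun y _ => (hφ.differentiable one_ne_zero).differentiableAt) _ (convex_ball x r)
        intro y hy
        have h1 := hball y hy
        have h2 : ‖fderiv ℝ φ y‖ ≤ ‖fderiv ℝ φ x‖ + ε := by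
          calc ‖fderiv ℝ φ y‖ = ‖fderiv ℝ φ x + (fderiv ℝ φ y - fderiv ℝ φ x)‖ := by congr 1; abel
            _ ≤ ‖fderiv ℝ φ x‖ + ‖fderiv ℝ φ y - fderiv ℝ φ x‖ := norm_add_le _ _
            _ ≤ _ := by gcongr
        exact_mod_cast h2
      have hcle : ∀ y ∈ B, (c : ℝ≥0∞) ≤ ‖fderiv ℝ φ y‖ₑ + 2 * ε := by
        intro y hy
        have h1 := hball y (hBs hy)
        have h2 : ‖fderiv ℝ φ x‖ ≤ ‖fderiv ℝ φ y‖ + ε := by
          calc ‖fderiv ℝ φ x‖ = ‖fderiv ℝ φ y - (fderiv ℝ φ y - fderiv ℝ φ x)‖ := by congr 1; abel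
            _ ≤ ‖fderiv ℝ φ y‖ + ‖fderiv ℝ φ y - fderiv ℝ φ x‖ := norm_sub_le _ _
            _ ≤ _ := by gcongr
        have h3 : (c : ℝ≥0) ≤ ‖fderiv ℝ φ y‖₊ + 2 * ε := by
          rw [← NNReal.coe_le_coe, hc]
          push_cast
          linarith
        rw [enorm_eq_nnnorm]
        exact_mod_cast h3
      calc volume (φ '' B) = μH[1] (φ '' B) := by rw [hausdorffMeasure_real]
        _ ≤ (c : ℝ≥0∞) ^ (1 : ℝ) * μH[1] B :=
            (hlip.mono hBs).hausdorffMeasure_image_le zero_le_one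
        _ = ∫⁻ x in B, (c : ℝ≥0∞) ∂μH[1] := by
            rw [ENNReal.rpow_one, setLIntegral_const]
        _ ≤ _ := setLIntegral_mono' hB hcle
  obtain ⟨s', h1, h2, h3⟩ := key
  exact h3 A hmeasA h2

theorem volume_image_le {φ : E → ℝ} (hφ : ContDiff ℝ 1 φ) {A : Set E}
    (hA : IsCompact A) (hfin : μH[1] A ≠ ⊤) :
    volume (φ '' A) ≤ ∫⁻ x in A, ‖fderiv ℝ φ x‖ₑ ∂μH[1] := by
  have hcont : Continuous fun x => fderiv ℝ φ x := hφ.continuous_fderiv one_ne_zero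
  have h : ∀ ε : ℝ≥0, 0 < ε → volume (φ '' A) ≤
      ∫⁻ x in A, ‖fderiv ℝ φ x‖ₑ ∂μH[1] + 2 * ε * μH[1] A := by
    intro ε hε
    refine (volume_image_le_aux hφ hε hA).trans (le_of_eq ?_)
    rw [lintegral_add_right _ measurable_const, setLIntegral_const]
  have hlim : Tendsto (fun ε : ℝ≥0 => ∫⁻ x in A, ‖fderiv ℝ φ x‖ₑ ∂μH[1] + 2 * ε * μH[1] A)
      (𝓝[>] 0) (𝓝 (∫⁻ x in A, ‖fderiv ℝ φ x‖ₑ ∂μH[1] + 2 * (0 : ℝ≥0) * μH[1] A)) := by
    refine Tendsto.mono_left ?_ nhdsWithin_le_nhds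
    apply Tendsto.const_add
    apply ENNReal.Tendsto.mul_const _ (Or.inr hfin)
    apply ENNReal.Tendsto.const_mul _ (Or.inr (by simp))
    exact ENNReal.tendsto_coe.2 tendsto_id
  simp only [ENNReal.coe_zero, mul_zero, zero_mul, add_zero] at hlim
  exact ge_of_tendsto hlim (eventually_mem_nhdsWithin.mono fun ε hε => h ε hε)

end Pool.Agent.Helper46.Stiff
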