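import Pool.Agent.Helper46.Stiff.Basic
import Pool.Agent.Helper46.Stiff.Image

/-! # Thickening a stiffener gains at most `C/m` per unit of mass -/

open MeasureTheory Set Metric Filter Topology
open scoped ENNReal NNReal ContDiff Manifold

namespace Pool.Agent.Helper46.Stiff

variable {Ω : Set Plane}

lemma exists_truncation {K B : Set ℝ} (hK : IsClosed K) (hB : IsOpen B) (hKB : K ⊆ B)
    (hBfin : volume B ≠ ⊤) :
    ∃ T : ℝ → ℝ, ContDiff ℝ ∞ T ∧ T 0 = 0 ∧ (∀ t, deriv T t ∈ Icc (0 : ℝ) 1) ∧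
      (∀ t ∈ K, deriv T t = 0) ∧ ∀ t, |t - T t| ≤ (volume B).toReal := by
  obtain ⟨τ, h0, h1, h01⟩ := exists_contMDiffMap_zero_one_of_isClosed (M := ℝ) 𝓘(ℝ, ℝ)
    (n := ⊤) hK hB.isClosed_compl (Set.disjoint_compl_right_iff_subset.2 hKB)
  have hτ : ContDiff ℝ ∞ (τ : ℝ → ℝ) := τ.contMDiff.contDiff
  have hτc : Continuous (τ : ℝ → ℝ) := hτ.continuous
  set T : ℝ → ℝ := fun t => ∫ s in (0 : ℝ)..t, τ s with hT
  have hd : ∀ t, HasDerivAt T (τ t) t := fun t =>
    intervalIntegral.integral_hasDerivAt_right (hτc.intervalIntegrable _ _)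
      (hτc.stronglyMeasurableAtFilter _ _) hτc.continuousAt
  have hderiv : deriv T = τ := funext fun t => (hd t).deriv
  refine ⟨T, ?_, ?_, ?_, ?_, ?_⟩
  · rw [contDiff_infty_iff_deriv]
    exact ⟨fun t => (hd t).differentiableAt, by rw [hderiv]; exact hτ⟩
  · simp [hT]
  · intro t; rw [hderiv]; exact h01 t
  · intro t ht; rw [hderiv]; exact h0 ht
  · intro t
    have e1 : t - T t = ∫ s in (0 : ℝ)..t, (1 - τ s) := by
      rw [intervalIntegral.integral_sub (by simp) (hτc.intervalIntegrable _ _)]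
      simp [hT]
    rw [e1]
    have e2 : ∀ s, |1 - τ s| ≤ B.indicator (fun _ => (1 : ℝ)) s := by
      intro s
      have := h01 s
      by_cases hs : s ∈ B
      · rw [indicator_of_mem hs, abs_le]
        constructor <;> linarith [this.1, this.2]
      · rw [indicator_of_notMem hs]
        have : τ s = 1 := h1 hs
        rw [this]; simp
    have hint : IntegrableOn (fun _ : ℝ => (1 : ℝ)) B := by
      rw [integrableOn_const_iff]; right; exact hBfin.lt_top
    have hint' : Integrable (B.indicator (fun _ => (1 : ℝ))) :=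
      hint.integrable_indicator hB.measurableSet
    calc |∫ s in (0 : ℝ)..t, (1 - τ s)| ≤ ∫ s in Set.uIoc 0 t, |1 - τ s| := by
          have := intervalIntegral.norm_integral_le_integral_norm_uIoc (a := (0 : ℝ)) (b := t)
            (f := fun s => 1 - τ s) (μ := volume)
          simpa [Real.norm_eq_abs] using this
      _ ≤ ∫ s in Set.uIoc 0 t, B.indicator (fun _ => (1 : ℝ)) s := by
          apply setIntegral_mono
          · exact (continuous_const.sub hτc).abs.integrableOn_uIoc
          · exact hint'.integrableOn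
          · exact e2
      _ ≤ ∫ s, B.indicator (fun _ => (1 : ℝ)) s := by
          apply setIntegral_le_integral hint'
          exact Eventually.of_forall fun s => indicator_nonneg (fun _ _ => zero_le_one) s
      _ = (volume B).toReal := by
          rw [integral_indicator hB.measurableSet]; simp [Measure.real]

lemma exists_truncated {φ : Plane → ℝ} (hφ : IsTest Ω φ) {K B : Set ℝ} (hK : IsClosed K)
    (hB : IsOpen B) (hKB : K ⊆ B) (hBfin : volume B ≠ ⊤) :
    ∃ ψ : Plane → ℝ, IsTest Ω ψ ∧ (∀ x, φ x ∈ K → ‖gradient ψ x‖ = 0) ∧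
      (∀ x, ‖gradient ψ x‖ ≤ ‖gradient φ x‖) ∧ ∀ x, |φ x - ψ x| ≤ (volume B).toReal := by
  obtain ⟨T, hT, hT0, hT1, hTK, hTB⟩ := exists_truncation hK hB hKB hBfin
  have hfd : ∀ x, fderiv ℝ (T ∘ φ) x = (deriv T (φ x)) • fderiv ℝ φ x := by
    intro x
    have h1 : HasDerivAt T (deriv T (φ x)) (φ x) :=
      (hT.differentiable (by simp)).differentiableAt.hasDerivAt
    exact (h1.comp_hasFDerivAt x (hφ.differentiable.differentiableAt.hasFDerivAt)).fderiv
  refine ⟨T ∘ φ, ⟨hT.comp hφ.1, hφ.2.1.comp_left hT0, ?_⟩, ?_, ?_, ?_⟩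
  · exact (closure_mono (Function.support_comp_subset hT0 φ)).trans hφ.2.2
  · intro x hx
    rw [norm_gradient, hfd, hTK _ hx, zero_smul, norm_zero]
  · intro x
    rw [norm_gradient, norm_gradient, hfd, norm_smul, Real.norm_eq_abs]
    have := hT1 (φ x)
    rw [abs_of_nonneg this.1]
    exact mul_le_of_le_one_left (norm_nonneg _) this.2
  · intro x; exact hTB (φ x)

lemma l2_lower {φ ψ : Plane → ℝ} (hφ : IsTest Ω φ) (hψ : IsTest Ω ψ) (hΩ : MeasurableSet Ω)
    (hvol : volume Ω ≠ ⊤) {s b : ℝ}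
    (hs : 0 < s) (hs2 : s ^ 2 = (volume Ω).toReal) (h1 : L2 Ω φ = 1) (hb0 : 0 ≤ b)
    (hb : ∀ x, |φ x - ψ x| ≤ b) : 1 - 2 * s * b ≤ L2 Ω ψ := by
  have hpt : ∀ x, φ x ^ 2 - 2 * b * ((s * φ x ^ 2 + s⁻¹) / 2) ≤ ψ x ^ 2 := by
    intro x
    have e1 : |φ x| ≤ (s * φ x ^ 2 + s⁻¹) / 2 := by
      have h2 : 0 ≤ (s * |φ x| - 1) ^ 2 := sq_nonneg _
      have h3 : 2 * |φ x| ≤ s * φ x ^ 2 + s⁻¹ := by
        have h4 : s * (2 * |φ x|) ≤ s * (s * φ x ^ 2 + s⁻¹) := by
          rw [mul_add, mul_inv_cancel₀ hs.ne', ← sq_abs (φ x)]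
          nlinarith
        exact le_of_mul_le_mul_left h4 hs
      linarith
    have e2 : φ x ^ 2 - 2 * b * |φ x| ≤ ψ x ^ 2 := by
      have h3 := hb x
      have h4 : φ x ^ 2 - ψ x ^ 2 ≤ 2 * |φ x| * |φ x - ψ x| := by
        have h5 : φ x ^ 2 - ψ x ^ 2 ≤ 2 * (φ x * (φ x - ψ x)) := by nlinarith [sq_nonneg (φ x - ψ x)]
        have h6 : φ x * (φ x - ψ x) ≤ |φ x| * |φ x - ψ x| := by
          rw [← abs_mul]; exact le_abs_self _
        linarith
      have h7 : |φ x| * |φ x - ψ x| ≤ |φ x| * b := by gcongr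
      nlinarith
    nlinarith
  haveI : IsFiniteMeasure (volume.restrict Ω) :=
    ⟨by rw [Measure.restrict_apply_univ]; exact hvol.lt_top⟩
  have hi1 : Integrable (fun x => φ x ^ 2) (volume.restrict Ω) := (hφ.integrable_usq _)
  have hi2 : Integrable (fun x => ψ x ^ 2) (volume.restrict Ω) := (hψ.integrable_usq _)
  have hi3 : Integrable (fun x => φ x ^ 2 - 2 * b * ((s * φ x ^ 2 + s⁻¹) / 2))
      (volume.restrict Ω) := by
    apply hi1.sub
    apply Integrable.const_mul
    apply Integrable.div_const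
    exact (hi1.const_mul s).add (integrable_const _)
  have h := integral_mono hi3 hi2 hpt
  have e : ∫ x in Ω, (φ x ^ 2 - 2 * b * ((s * φ x ^ 2 + s⁻¹) / 2)) = 1 - 2 * s * b := by
    rw [integral_sub hi1 (by
      apply Integrable.const_mul
      apply Integrable.div_const
      exact (hi1.const_mul s).add (integrable_const _))]
    rw [integral_const_mul, integral_div, integral_add (hi1.const_mul s) (integrable_const _),
      integral_const_mul]
    have h1' : ∫ x in Ω, φ x ^ 2 = 1 := h1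
    rw [h1']
    simp only [integral_const, smul_eq_mul, Measure.real, Measure.restrict_apply_univ]
    rw [← hs2]
    field_simp
    ring
  rw [e] at h
  exact h

theorem gain (hΩ : IsOpen Ω) (hne : Ω.Nonempty) (hvol : volume Ω ≠ ⊤) {m : ℝ} (hm : 0 < m)
    {S : Set Plane} (hS : IsCompact S) (hlen : (μH[1] : Measure Plane) S ≠ ⊤)
    (ν : Measure Plane) [IsFiniteMeasure ν] (hν : ν Sᶜ = 0)
    (hpos : 0 < lambda1 Ω m ((μH[1] : Measure Plane).restrict S)) :
    lambda1 Ω m ((μH[1] : Measure Plane).restrict S + ν) ≤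
      lambda1 Ω m ((μH[1] : Measure Plane).restrict S) +
        9 * lambda1 Ω m ((μH[1] : Measure Plane).restrict S) ^ 2 * (volume Ω).toReal / m *
          (ν univ).toReal := by
  set μ₀ : Measure Plane := (μH[1] : Measure Plane).restrict S with hμ₀
  haveI : IsFiniteMeasure μ₀ :=
    ⟨by rw [hμ₀, Measure.restrict_apply_univ]; exact hlen.lt_top⟩
  set l : ℝ := lambda1 Ω m μ₀ with hl
  set l' : ℝ := lambda1 Ω m (μ₀ + ν) with hl'
  have hl'0 : 0 ≤ l' := by
    apply le_lambda1 hΩ hne
    intro u _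
    rw [zero_mul]
    exact add_nonneg dir_nonneg (mul_nonneg hm.le sti_nonneg)
  have hV : 0 < (volume Ω).toReal := ENNReal.toReal_pos (hΩ.measure_pos _ hne).ne' hvol
  set s : ℝ := Real.sqrt (volume Ω).toReal with hs
  have hs0 : 0 < s := Real.sqrt_pos.2 hV
  have hs2 : s ^ 2 = (volume Ω).toReal := Real.sq_sqrt hV.le
  set F : ℝ := l * s with hF
  have hF0 : 0 < F := mul_pos hpos hs0
  -- the inequality with an error
  have key : ∀ ε : ℝ, 0 < ε → l' * (1 - 2 * s * (ε / F + 3 * ε)) ≤
      l + ε + m * ((3 * F / m) ^ 2 * (ν univ).toReal) := by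
    intro ε hε
    obtain ⟨φ, hφ, hφ1, hφE⟩ := exists_normalized hΩ hne (μ := μ₀) (m := m) (r := l + ε)
      (by rw [← hl]; linarith)
    set A : Set Plane := S ∩ {x | 3 * F ≤ m * ‖gradient φ x‖} with hA
    have hAc : IsCompact A :=
      hS.inter_right (isClosed_le continuous_const (continuous_const.mul hφ.continuous_norm_gradient))
    have hAm : MeasurableSet A := hAc.isClosed.measurableSet
    have hAlen : (μH[1] : Measure Plane) A ≠ ⊤ :=
      ne_top_of_le_ne_top hlen (measure_mono inter_subset_left)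
    haveI : IsFiniteMeasure ((μH[1] : Measure Plane).restrict A) :=
      ⟨by rw [Measure.restrict_apply_univ]; exact hAlen.lt_top⟩
    set K : Set ℝ := φ '' A with hK
    have hKc : IsCompact K := hAc.image hφ.continuous
    have hKfin : volume K ≠ ⊤ := hKc.measure_lt_top.ne
    set v : ℝ := (volume K).toReal with hv
    set a : ℝ := ∫ x in A, ‖gradient φ x‖ ^ 2 ∂μH[1] with ha
    have ha0 : 0 ≤ a := integral_nonneg fun _ => by positivity
    -- (1)
    have h1 : v ≤ m / (3 * F) * a := by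
      have e1 := volume_image_le hφ.contDiff1 hAc hAlen
      have e2 : ∫⁻ x in A, ‖fderiv ℝ φ x‖ₑ ∂μH[1] ≤
          ∫⁻ x in A, ENNReal.ofReal (m / (3 * F) * ‖gradient φ x‖ ^ 2) ∂μH[1] := by
        apply setLIntegral_mono' hAm
        intro x hx
        rw [← ofReal_norm, ← norm_gradient]
        apply ENNReal.ofReal_le_ofReal
        have hx2 : 3 * F ≤ m * ‖gradient φ x‖ := hx.2
        have : 1 ≤ m / (3 * F) * ‖gradient φ x‖ := by
          rw [div_mul_eq_mul_div, le_div_iff₀ (by positivity)]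
          linarith
        calc ‖gradient φ x‖ = 1 * ‖gradient φ x‖ := by ring
          _ ≤ (m / (3 * F) * ‖gradient φ x‖) * ‖gradient φ x‖ := by gcongr
          _ = _ := by ring
      have hint : Integrable (fun x => m / (3 * F) * ‖gradient φ x‖ ^ 2)
          ((μH[1] : Measure Plane).restrict A) := (hφ.integrable_sq _).const_mul _
      rw [← ofReal_integral_eq_lintegral_ofReal hint
        (Eventually.of_forall fun x => by positivity)] at e2
      have e3 := e1.trans e2
      rw [integral_const_mul] at e3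
      rw [hv]
      exact ENNReal.toReal_le_of_le_ofReal (by positivity) e3
    -- (2)
    obtain ⟨B, hKB, hBo, hBv⟩ := K.exists_isOpen_lt_add (μ := volume) hKfin
      (ε := ENNReal.ofReal ε) (by simpa using hε)
    have hBfin : volume B ≠ ⊤ := (hBv.trans_le le_top).ne
    set b : ℝ := (volume B).toReal with hb
    have hb0 : 0 ≤ b := ENNReal.toReal_nonneg
    have h2 : b ≤ v + ε := by
      have := ENNReal.toReal_mono (by finiteness) hBv.le
      rwa [ENNReal.toReal_add hKfin ENNReal.ofReal_ne_top, ENNReal.toReal_ofReal hε.le] at this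
    obtain ⟨ψ, hψ, hψ0, hψle, hψb⟩ := exists_truncated hφ hKc.isClosed hBo hKB hBfin
    -- (3)
    have h3 : Sti μ₀ ψ ≤ Sti μ₀ φ - a := by
      have e1 : Sti μ₀ φ - a = ∫ x, (‖gradient φ x‖ ^ 2 -
          A.indicator (fun x => ‖gradient φ x‖ ^ 2) x) ∂μ₀ := by
        rw [integral_sub (hφ.integrable_sq _) ((hφ.integrable_sq _).indicator hAm)]
        rw [integral_indicator hAm, hμ₀, Measure.restrict_restrict hAm,
          inter_eq_self_of_subset_left (show A ⊆ S from inter_subset_left)]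
        rfl
      rw [e1]
      apply integral_mono (hψ.integrable_sq _)
        ((hφ.integrable_sq _).sub ((hφ.integrable_sq _).indicator hAm))
      intro x
      show ‖gradient ψ x‖ ^ 2 ≤ ‖gradient φ x‖ ^ 2 - A.indicator (fun x => ‖gradient φ x‖ ^ 2) x
      by_cases hx : x ∈ A
      · rw [indicator_of_mem hx, hψ0 x ⟨x, hx, rfl⟩]; simp
      · rw [indicator_of_notMem hx, sub_zero]
        gcongr
        exact hψle x
    have h3' : Dir Ω ψ ≤ Dir Ω φ := by
      rw [hψ.dir_eq, hφ.dir_eq]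
      apply integral_mono (hψ.integrable_sq _) (hφ.integrable_sq _)
      intro x
      simp only
      gcongr
      exact hψle x
    -- (4)
    have h4 : 1 - 2 * s * b ≤ L2 Ω ψ :=
      l2_lower hφ hψ hΩ.measurableSet hvol hs0 hs2 hφ1 hb0 hψb
    -- (5)
    have h5 : m * a ≤ ε + 2 * F * b := by
      have e1 := lambda1_mul_le (μ := μ₀) hm.le hψ
      rw [← hl] at e1
      have e2 : l * (1 - 2 * s * b) ≤ l * L2 Ω ψ := by gcongr
      have e3 : Dir Ω ψ + m * Sti μ₀ ψ ≤ l + ε - m * a := by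
        have : m * Sti μ₀ ψ ≤ m * (Sti μ₀ φ - a) := by gcongr
        linarith
      have e4 : l * (1 - 2 * s * b) = l - 2 * F * b := by rw [hF]; ring
      linarith
    -- (6)
    have h6 : 3 * F * v ≤ m * a := by
      have : 3 * F * v ≤ 3 * F * (m / (3 * F) * a) := by gcongr
      calc 3 * F * v ≤ 3 * F * (m / (3 * F) * a) := this
        _ = m * a := by field_simp
    have h7 : b ≤ ε / F + 3 * ε := by
      have e1 : F * v ≤ ε + 2 * F * ε := by nlinarith
      have e2 : v ≤ ε / F + 2 * ε := by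
        rw [div_add' _ _ _ hF0.ne', le_div_iff₀ hF0]
        linarith
      linarith
    -- (7)
    have h8 : Sti ν ψ ≤ (3 * F / m) ^ 2 * (ν univ).toReal := by
      have e1 : Sti ν ψ ≤ ∫ _, (3 * F / m) ^ 2 ∂ν := by
        apply integral_mono_ae (hψ.integrable_sq _) (integrable_const _)
        have hae : ∀ᵐ x ∂ν, x ∈ S := by
          rw [ae_iff]; exact hν
        filter_upwards [hae] with x hx
        by_cases hxA : x ∈ A
        · show ‖gradient ψ x‖ ^ 2 ≤ (3 * F / m) ^ 2
          rw [hψ0 x ⟨x, hxA, rfl⟩, zero_pow two_ne_zero]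
          positivity
        · have : m * ‖gradient φ x‖ < 3 * F := by
            by_contra hcon
            exact hxA ⟨hx, not_lt.1 hcon⟩
          have e3 : ‖gradient φ x‖ ≤ 3 * F / m := by
            rw [le_div_iff₀ hm]; linarith
          gcongr
          exact (hψle x).trans e3
      refine e1.trans (le_of_eq ?_)
      rw [integral_const, smul_eq_mul, mul_comm]
      rfl
    -- (8)
    have e1 := lambda1_mul_le (μ := μ₀ + ν) hm.le hψ
    rw [← hl'] at e1
    have e2 : Sti (μ₀ + ν) ψ = Sti μ₀ ψ + Sti ν ψ :=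
      integral_add_measure (hψ.integrable_sq _) (hψ.integrable_sq _)
    have e3 : l' * (1 - 2 * s * (ε / F + 3 * ε)) ≤ l' * L2 Ω ψ := by
      apply mul_le_mul_of_nonneg_left _ hl'0
      refine le_trans ?_ h4
      have : 2 * s * b ≤ 2 * s * (ε / F + 3 * ε) := by gcongr
      linarith
    have e4 : m * Sti ν ψ ≤ m * ((3 * F / m) ^ 2 * (ν univ).toReal) := by gcongr
    have e5 : m * Sti μ₀ ψ ≤ m * Sti μ₀ φ := by
      have : Sti μ₀ ψ ≤ Sti μ₀ φ := by linarith
      gcongr
    rw [e2, mul_add] at e1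
    linarith
  -- let ε → 0
  have hG : m * ((3 * F / m) ^ 2 * (ν univ).toReal) =
      9 * l ^ 2 * (volume Ω).toReal / m * (ν univ).toReal := by
    rw [hF, ← hs2]
    field_simp
    ring
  have hlim : Tendsto (fun ε : ℝ => l + ε + m * ((3 * F / m) ^ 2 * (ν univ).toReal) -
      l' * (1 - 2 * s * (ε / F + 3 * ε))) (𝓝[>] 0)
      (𝓝 (l + 0 + m * ((3 * F / m) ^ 2 * (ν univ).toReal) -
      l' * (1 - 2 * s * (0 / F + 3 * 0)))) := by
    refine Tendsto.mono_left ?_ nhdsWithin_le_nhds
    apply Continuous.tendsto (f := fun ε : ℝ => l + ε + m * ((3 * F / m) ^ 2 * (ν univ).toReal) -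
      l' * (1 - 2 * s * (ε / F + 3 * ε)))
    fun_prop
  have h := ge_of_tendsto hlim (eventually_mem_nhdsWithin.mono fun ε hε => by
    have := key ε hε
    show (0 : ℝ) ≤ _
    linarith)
  rw [hG] at h
  simp only [zero_div, mul_zero, add_zero, sub_zero, mul_one] at h
  linarith

end Pool.Agent.Helper46.Stiff
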