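import Pool.Agent.Helper46.Stiff.Pieces

/-! # A measure form of Golab's theorem -/

open MeasureTheory Set Metric Filter Topology
open scoped ENNReal NNReal

namespace Pool.Agent.Helper46.Stiff

variable {E : Type*} [MetricSpace E] [MeasurableSpace E] [BorelSpace E]

lemma eventually_closed_lt (μ : FiniteMeasure E) {F : Set E} (hF : IsClosed F) {a : ℝ≥0∞}
    (ha : (μ : Measure E) F < a) : ∀ᶠ ν : FiniteMeasure E in 𝓝 μ, (ν : Measure E) F < a := by
  have h := FiniteMeasure.limsup_measure_closed_le_of_tendsto (μs := fun ν : FiniteMeasure E => ν)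
    (L := 𝓝 μ) tendsto_id hF
  exact eventually_lt_of_limsup_lt (h.trans_lt ha)

lemma eventually_open_pos (μ : FiniteMeasure E) {U : Set E} (hU : IsOpen U)
    (ha : 0 < (μ : Measure E) U) : ∀ᶠ ν : FiniteMeasure E in 𝓝 μ, 0 < (ν : Measure E) U := by
  have h1 : (μ : Measure E) Uᶜ < (μ : Measure E) univ := by
    rw [measure_compl hU.measurableSet (measure_ne_top _ _)]
    exact ENNReal.sub_lt_self (measure_ne_top _ _)
      (ha.trans_le (measure_mono (subset_univ _))).ne' ha.ne'
  obtain ⟨a, ha1, ha2⟩ := exists_between h1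
  have h2 := eventually_closed_lt μ hU.isClosed_compl ha1
  have h3 : ∀ᶠ ν : FiniteMeasure E in 𝓝 μ, a < (ν : Measure E) univ := by
    have hc : Continuous fun ν : FiniteMeasure E => ((ν.mass : ℝ≥0) : ℝ≥0∞) :=
      ENNReal.continuous_coe.comp FiniteMeasure.continuous_mass
    have := (hc.tendsto μ).eventually (lt_mem_nhds (a := a) (by
      rw [FiniteMeasure.ennreal_mass]; exact ha2))
    filter_upwards [this] with ν hν
    rwa [FiniteMeasure.ennreal_mass] at hν
  filter_upwards [h2, h3] with ν hν1 hν2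
  by_contra h0
  have h0' : (ν : Measure E) U = 0 := by simpa using h0
  have : (ν : Measure E) univ ≤ (ν : Measure E) U + (ν : Measure E) Uᶜ := by
    rw [← union_compl_self U]; exact measure_union_le _ _
  rw [h0', zero_add] at this
  exact absurd (hν2.trans_le this) (not_lt.2 hν1.le)

/-- the admissible measures in a compact set `K`, of mass at most `C` -/
def Adm (K : Set E) (C : ℝ≥0) : Set (FiniteMeasure E) :=
  {μ | (μ.mass ≤ C ∧ (μ : Measure E) Kᶜ = 0) ∧ IsPreconnected (μ : Measure E).support ∧
    (μH[1] : Measure E).restrict (μ : Measure E).support ≤ (μ : Measure E)}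

section

variable [SecondCountableTopology E] {K : Set E} {C : ℝ≥0}

lemma isCompact_base (hK : IsCompact K) (C : ℝ≥0) :
    IsCompact {μ : FiniteMeasure E | μ.mass ≤ C ∧ (μ : Measure E) Kᶜ = 0} := by
  have h := isCompact_setOfPred_finiteMeasure_mass_le_compl_isCompact_le (E := E)
    (u := fun _ => 0) (K := fun _ => K) C tendsto_const_nhds (fun _ => hK) (Or.inr monotone_const)
  convert h using 1
  ext μ
  simp only [mem_setOf_eq, nonpos_iff_eq_zero, forall_const, and_congr_right_iff]
  intro _
  rw [FiniteMeasure.null_iff_toMeasure_null]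

lemma support_subset (hK : IsCompact K) {μ : Measure E} (h : μ Kᶜ = 0) : μ.support ⊆ K :=
  Measure.support_subset_of_isClosed hK.isClosed (by rwa [mem_ae_iff])

lemma support_nonempty_inter_of_pos {μ : Measure E} {U : Set E} (h : 0 < μ U) :
    (U ∩ μ.support).Nonempty := Measure.nonempty_inter_support_of_pos h

lemma pos_of_mem_support {μ : Measure E} {x : E} (hx : x ∈ μ.support) {U : Set E}
    (hU : U ∈ 𝓝 x) : 0 < μ U := (Measure.mem_support_iff_forall x).1 hx U hU

lemma isCompact_support (hK : IsCompact K) {μ : Measure E} (h : μ Kᶜ = 0) :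
    IsCompact μ.support :=
  hK.of_isClosed_subset Measure.isClosed_support (support_subset hK h)

lemma eventually_support_near (hK : IsCompact K) {μ : FiniteMeasure E}
    (hμ : (μ : Measure E) Kᶜ = 0) {η : ℝ} (hη : 0 < η) :
    ∀ᶠ ν : FiniteMeasure E in 𝓝 μ, (μ : Measure E).support ⊆ thickening η (ν : Measure E).support := by
  obtain ⟨t, htS, htf, hcov⟩ := (isCompact_support hK hμ).elim_finite_subcover_image
    (b := (μ : Measure E).support) (c := fun x => ball x (η / 2)) (fun x _ => isOpen_ball)
    (fun x hx => by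
      simp only [mem_iUnion]
      exact ⟨x, hx, mem_ball_self (half_pos hη)⟩)
  have h1 : ∀ x ∈ t, ∀ᶠ ν : FiniteMeasure E in 𝓝 μ, 0 < (ν : Measure E) (ball x (η / 2)) := fun x hx =>
    eventually_open_pos μ isOpen_ball (pos_of_mem_support (htS hx) (ball_mem_nhds x (half_pos hη)))
  have h2 := (Set.Finite.eventually_all htf).2 h1
  filter_upwards [h2] with ν hν
  intro y hy
  obtain ⟨x, hx, hyx⟩ : ∃ x ∈ t, y ∈ ball x (η / 2) := by
    have := hcov hy
    simpa using this
  obtain ⟨z, hz1, hz2⟩ := support_nonempty_inter_of_pos (hν x hx)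
  rw [mem_thickening_iff]
  refine ⟨z, hz2, ?_⟩
  calc dist y z ≤ dist y x + dist x z := dist_triangle _ _ _
    _ < η / 2 + η / 2 := by
      rw [mem_ball] at hyx hz1
      rw [dist_comm x z]
      exact add_lt_add hyx hz1
    _ = η := by ring

lemma eventually_near_support (hK : IsCompact K) {μ : FiniteMeasure E}
    (hnt : (μ : Measure E).support.Nontrivial) {η : ℝ} (hη : 0 < η) :
    ∀ᶠ ν : FiniteMeasure E in 𝓝 μ, ν ∈ Adm K C → (ν : Measure E).support ⊆ thickening η (μ : Measure E).support := by
  obtain ⟨x₁, hx₁, x₂, hx₂, hne⟩ := hnt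
  set d := dist x₁ x₂ with hd
  have hd0 : 0 < d := dist_pos.2 hne
  have hev1 := eventually_open_pos μ isOpen_ball
    (pos_of_mem_support hx₁ (ball_mem_nhds x₁ (by positivity : 0 < d / 4)))
  have hev2 := eventually_open_pos μ isOpen_ball
    (pos_of_mem_support hx₂ (ball_mem_nhds x₂ (by positivity : 0 < d / 4)))
  have hcpt : IsCompact (K \ thickening η (μ : Measure E).support) :=
    hK.diff isOpen_thickening
  have hloc : ∀ x ∈ K \ thickening η (μ : Measure E).support, ∃ r : ℝ, 0 < r ∧ r ≤ d / 4 ∧
      (μ : Measure E) (closedBall x (2 * r)) = 0 := by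
    intro x hx
    have hxs : x ∉ (μ : Measure E).support := fun h =>
      hx.2 (self_subset_thickening hη _ h)
    rw [Measure.notMem_support_iff_exists] at hxs
    obtain ⟨U, hU, hU0⟩ := hxs
    obtain ⟨ρ, hρ, hρU⟩ := Metric.nhds_basis_closedBall.mem_iff.1 hU
    refine ⟨min (ρ / 2) (d / 4), by positivity, min_le_right _ _, ?_⟩
    apply measure_mono_null _ hU0
    refine (closedBall_subset_closedBall ?_).trans hρU
    have := min_le_left (ρ / 2) (d / 4)
    linarith
  choose! r hr0 hrd hr using hloc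
  obtain ⟨t, htS, htf, hcov⟩ := hcpt.elim_finite_subcover_image
    (b := K \ thickening η (μ : Measure E).support) (c := fun x => ball x (r x))
    (fun x _ => isOpen_ball)
    (fun x hx => by
      simp only [mem_iUnion]
      exact ⟨x, hx, mem_ball_self (hr0 x hx)⟩)
  have h1 : ∀ x ∈ t, ∀ᶠ ν : FiniteMeasure E in 𝓝 μ, (ν : Measure E) (closedBall x (2 * r x)) <
      ENNReal.ofReal (r x) := fun x hx =>
    eventually_closed_lt μ isClosed_closedBall (by
      rw [hr x (htS hx)]; exact ENNReal.ofReal_pos.2 (hr0 x (htS hx)))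
  have h2 := (Set.Finite.eventually_all htf).2 h1
  filter_upwards [h2, hev1, hev2] with ν hν hν1 hν2 hAdm
  intro y hy
  by_contra hyn
  have hyK : y ∈ K := support_subset hK hAdm.1.2 hy
  obtain ⟨x, hx, hyx⟩ : ∃ x ∈ t, y ∈ ball x (r x) := by
    have := hcov ⟨hyK, hyn⟩
    simpa using this
  obtain ⟨p₁, hp₁, hp₁s⟩ := support_nonempty_inter_of_pos hν1
  obtain ⟨p₂, hp₂, hp₂s⟩ := support_nonempty_inter_of_pos hν2
  rw [mem_ball] at hp₁ hp₂ hyx
  have hfar : ∃ z ∈ (ν : Measure E).support, r x ≤ dist y z := by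
    by_contra hcon
    push Not at hcon
    have e1 := hcon p₁ hp₁s
    have e2 := hcon p₂ hp₂s
    have e3 := hrd x (htS hx)
    have : d ≤ dist p₁ x₁ + dist y p₁ + dist y p₂ + dist p₂ x₂ := by
      calc d = dist x₁ x₂ := rfl
        _ ≤ dist x₁ p₁ + dist p₁ x₂ := dist_triangle _ _ _
        _ ≤ dist x₁ p₁ + (dist p₁ y + dist y x₂) := by gcongr; exact dist_triangle _ _ _
        _ ≤ dist x₁ p₁ + (dist p₁ y + (dist y p₂ + dist p₂ x₂)) := by
            gcongr; exact dist_triangle _ _ _
        _ = _ := by rw [dist_comm x₁ p₁, dist_comm p₁ y]; ring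
    linarith
  obtain ⟨z, hz, hyz⟩ := hfar
  have h3 := ofReal_le_hausdorff hAdm.2.1 hy hz hyz
  have h4 : μH[1] ((ν : Measure E).support ∩ closedBall y (r x)) ≤
      (ν : Measure E) (closedBall x (2 * r x)) := by
    calc μH[1] ((ν : Measure E).support ∩ closedBall y (r x))
        = (μH[1] : Measure E).restrict (ν : Measure E).support (closedBall y (r x)) := by
          rw [Measure.restrict_apply isClosed_closedBall.measurableSet, inter_comm]
      _ ≤ (ν : Measure E) (closedBall y (r x)) := hAdm.2.2 _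
      _ ≤ _ := by
          apply measure_mono
          apply closedBall_subset_closedBall'
          linarith
  exact absurd (h3.trans h4) (not_le.2 (hν x hx))

end

end Pool.Agent.Helper46.Stiff
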