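import Pool.Agent.Helper46.Stiff.Plane
import Pool.Agent.Helper46.Stiff.Closure

/-! # Ladders in convex domains -/

open MeasureTheory Set Metric Filter Topology
open scoped ENNReal NNReal ContDiff

namespace Pool.Agent.Helper46.Stiff

section general

variable {E : Type*} [MetricSpace E] [MeasurableSpace E] [BorelSpace E]

lemma support_restrict_eq {S : Set E} (hSc : IsCompact S) (hS : IsPreconnected S)
    (hnt : S.Nontrivial) : ((μH[1] : Measure E).restrict S).support = S := by
  apply subset_antisymm
  · apply Measure.support_subset_of_isClosed hSc.isClosed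
    rw [mem_ae_iff, Measure.restrict_apply hSc.isClosed.measurableSet.compl]
    simp
  · intro x hx
    rw [Measure.mem_support_iff_forall]
    intro U hU
    obtain ⟨r, hr, hball⟩ := Metric.mem_nhds_iff.1 hU
    obtain ⟨z, hz, hzx⟩ := hnt.exists_ne x
    have hd : 0 < dist x z := dist_pos.2 hzx.symm
    set ρ := min (r / 2) (dist x z) with hρ
    have hρ0 : 0 < ρ := by positivity
    have h1 := ofReal_le_hausdorff hS hx hz (min_le_right (r / 2) (dist x z))
    rw [← hρ] at h1
    have h2 : μH[1] (S ∩ closedBall x ρ) ≤ (μH[1] : Measure E).restrict S U := by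
      calc μH[1] (S ∩ closedBall x ρ) = (μH[1] : Measure E).restrict S (closedBall x ρ) := by
            rw [Measure.restrict_apply isClosed_closedBall.measurableSet, inter_comm]
        _ ≤ _ := by
            apply measure_mono
            refine subset_trans ?_ hball
            apply closedBall_subset_ball
            have := min_le_left (r / 2) (dist x z)
            linarith
    exact (ENNReal.ofReal_pos.2 hρ0).trans_le (h1.trans h2)

end general

variable {Ω : Set Plane} {u : Plane → ℝ} {R : ℝ}

lemma rows_integral (hu : IsTest Ω u) (hR : 0 < R) {n : ℕ} (hn : 0 < n) {S : Set Plane}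
    (hSm : MeasurableSet S)
    (hSlen : (μH[1] : Measure Plane) S ≠ ⊤)
    (hrow : ∀ j ∈ Finset.range n, closure Ω ∩ {z | z 1 = -R + j * (2 * R / n)} ⊆ S) :
    ∑ j ∈ Finset.range n, ∫ x, ‖gradient u (pt x (-R + j * (2 * R / n)))‖ ^ 2 ≤
      Sti ((μH[1] : Measure Plane).restrict S) u := by
  have hn' : (0 : ℝ) < n := by exact_mod_cast hn
  haveI : IsFiniteMeasure ((μH[1] : Measure Plane).restrict S) :=
    ⟨by rw [Measure.restrict_apply_univ]; exact hSlen.lt_top⟩
  set a : ℕ → ℝ := fun j => -R + j * (2 * R / n) with ha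
  set row : ℕ → Set Plane := fun j => closure Ω ∩ {z | z 1 = a j} with hrowdef
  have hc1 : Continuous fun z : Plane => z 1 := by fun_prop
  have hrowm : ∀ j, MeasurableSet (row j) := fun j =>
    (isClosed_closure.inter (isClosed_eq hc1 continuous_const)).measurableSet
  have hint : IntegrableOn (fun z => ‖gradient u z‖ ^ 2) S μH[1] := hu.integrable_sq _
  have e1 : ∀ j ∈ Finset.range n, ∫ x, ‖gradient u (pt x (a j))‖ ^ 2 =
      ∫ z in row j, ‖gradient u z‖ ^ 2 ∂μH[1] := by
    intro j hj
    have hiso := isometry_pt (a j)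
    have hmap : Measure.map (fun x => pt x (a j)) volume =
        (μH[1] : Measure Plane).restrict (range fun x => pt x (a j)) := by
      rw [← hausdorffMeasure_real]
      exact hiso.map_hausdorffMeasure (Or.inl zero_le_one)
    have h1 : ∫ x, ‖gradient u (pt x (a j))‖ ^ 2 =
        ∫ z in range (fun x => pt x (a j)), ‖gradient u z‖ ^ 2 ∂μH[1] := by
      rw [← hmap]
      exact (hiso.isClosedEmbedding.measurableEmbedding.integral_map
        (fun z => ‖gradient u z‖ ^ 2)).symm
    rw [h1]
    have hsub : row j ⊆ range fun x => pt x (a j) := by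
      rintro z ⟨-, hz⟩
      refine ⟨z 0, ?_⟩
      rw [eq_pt z]
      simp only [pt_zero]
      have : z 1 = a j := hz
      rw [this]
    apply setIntegral_eq_of_subset_of_forall_diff_eq_zero
      hiso.isClosedEmbedding.isClosed_range.measurableSet hsub
    rintro z ⟨⟨x, rfl⟩, hz2⟩
    have : pt x (a j) ∉ Ω := fun h => hz2 ⟨subset_closure h, by simp⟩
    simp [hu.gradient_zero this]
  rw [Finset.sum_congr rfl e1]
  rw [← integral_biUnion_finset (Finset.range n) (fun j _ => hrowm j) ?_
    (fun j hj => hint.mono_set (hrow j hj))]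
  · unfold Sti
    apply setIntegral_mono_set hint (Eventually.of_forall fun _ => by positivity)
    apply HasSubset.Subset.eventuallyLE
    exact iUnion₂_subset fun j hj => hrow j hj
  · intro i _ j _ hij
    rw [Function.onFun, Set.disjoint_left]
    rintro z ⟨-, hz1⟩ ⟨-, hz2⟩
    apply hij
    have h1 : z 1 = a i := hz1
    have h2 : z 1 = a j := hz2
    rw [h1] at h2
    simp only [ha] at h2
    have h3 : (i : ℝ) * (2 * R / n) = j * (2 * R / n) := by linarith
    have h4 : (2 * R / n) ≠ 0 := by positivity
    exact_mod_cast mul_right_cancel₀ h4 h3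

/-- A continuum of finite length in `closure Ω` that contains the `n` rows. -/
lemma exists_ladder (hconv : Convex ℝ Ω) (hΩo : IsOpen Ω) (hne : Ω.Nonempty) (hR : 0 < R)
    (hΩ : Ω ⊆ closedBall 0 R) {n : ℕ} (hn : 0 < n) :
    ∃ S : Set Plane, IsCompact S ∧ IsPreconnected S ∧ S.Nontrivial ∧ S ⊆ closure Ω ∧
      (μH[1] : Measure Plane) S ≠ ⊤ ∧
      ∀ j ∈ Finset.range n, closure Ω ∩ {z | z 1 = -R + j * (2 * R / n)} ⊆ S := by
  set K := closure Ω with hK
  have hKR : K ⊆ closedBall 0 R := closure_minimal hΩ isClosed_closedBall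
  have hKc : IsCompact K := (isCompact_closedBall 0 R).of_isClosed_subset isClosed_closure hKR
  have hKconv : Convex ℝ K := hconv.closure
  have hKne : K.Nonempty := hne.closure
  have hc1 : Continuous fun z : Plane => z 1 := by fun_prop
  obtain ⟨p, hpK, hp⟩ := hKc.exists_isMaxOn hKne hc1.continuousOn
  obtain ⟨q, hqK, hq⟩ := hKc.exists_isMinOn hKne hc1.continuousOn
  have hpmax : ∀ z ∈ K, z 1 ≤ p 1 := fun z hz => hp hz
  have hqmin : ∀ z ∈ K, q 1 ≤ z 1 := fun z hz => hq hz
  -- p ≠ q
  have hpq : q ≠ p := by
    rintro rfl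
    obtain ⟨z, hz⟩ := hne
    obtain ⟨r, hr, hball⟩ := Metric.isOpen_iff.1 hΩo z hz
    have h1 : z + (r / 2) • pt 0 1 ∈ K := by
      apply subset_closure
      apply hball
      rw [mem_ball, dist_eq_norm, add_sub_cancel_left, norm_smul, norm_pt01, mul_one,
        Real.norm_eq_abs, abs_of_pos (by linarith)]
      linarith
    have h2 := hpmax _ h1
    have h3 := hqmin z (subset_closure hz)
    simp at h2
    linarith
  set Seg : Set Plane := segment ℝ q p with hSeg
  have hSegK : Seg ⊆ K := hKconv.segment_subset hqK hpK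
  have hSegc : IsCompact Seg := by
    rw [hSeg, segment_eq_image_lineMap]
    exact isCompact_Icc.image (AffineMap.lineMap_continuous)
  have hSegp : IsPreconnected Seg := (convex_segment q p).isPreconnected
  set a : ℕ → ℝ := fun j => -R + j * (2 * R / n) with ha
  set row : ℕ → Set Plane := fun j => K ∩ {z | z 1 = a j} with hrow
  have hrowc : ∀ j, IsCompact (row j) := fun j =>
    hKc.inter_right (isClosed_eq hc1 continuous_const)
  have hrowconv : ∀ j, Convex ℝ (row j) := by
    intro j
    apply hKconv.inter
    exact convex_hyperplane (f := fun z : Plane => z 1) ⟨fun x y => by simp, fun c x => by simp⟩ _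
  have hmeet : ∀ j, (row j).Nonempty → (Seg ∩ row j).Nonempty := by
    rintro j ⟨z, hzK, hz1⟩
    have hz1' : z 1 = a j := hz1
    have hmem : a j ∈ (fun z : Plane => z 1) '' Seg := by
      apply hSegp.intermediate_value (left_mem_segment ℝ q p) (right_mem_segment ℝ q p)
        hc1.continuousOn
      exact ⟨by rw [← hz1']; exact hqmin z hzK, by rw [← hz1']; exact hpmax z hzK⟩
    obtain ⟨w, hw, hw1⟩ := hmem
    exact ⟨w, hw, hSegK hw, hw1⟩
  set S : Set Plane := Seg ∪ ⋃ j ∈ Finset.range n, row j with hS
  refine ⟨S, ?_, ?_, ?_, ?_, ?_, ?_⟩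
  · exact hSegc.union ((Finset.range n).isCompact_biUnion fun j _ => hrowc j)
  · apply isPreconnected_of_forall q
    rintro y (hy | hy)
    · exact ⟨Seg, subset_union_left, left_mem_segment ℝ q p, hy, hSegp⟩
    · simp only [mem_iUnion] at hy
      obtain ⟨j, hj, hyj⟩ := hy
      refine ⟨Seg ∪ row j, ?_, Or.inl (left_mem_segment ℝ q p), Or.inr hyj,
        hSegp.union' (hmeet j ⟨y, hyj⟩) (hrowconv j).isPreconnected⟩
      apply union_subset_union_right
      exact subset_biUnion_of_mem (s := (Finset.range n : Set ℕ)) (u := row)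
        (by simpa using hj)
  · exact ⟨q, Or.inl (left_mem_segment ℝ q p), p, Or.inl (right_mem_segment ℝ q p), hpq⟩
  · apply union_subset hSegK
    exact iUnion₂_subset fun j _ => inter_subset_left
  · have h1 : (μH[1] : Measure Plane) Seg < ⊤ := by
      rw [hSeg, hausdorffMeasure_segment]; exact edist_lt_top _ _
    have h2 : (μH[1] : Measure Plane) (⋃ j ∈ Finset.range n, row j) < ⊤ := by
      refine (measure_biUnion_finset_le _ _).trans_lt ?_
      apply ENNReal.sum_lt_top.2
      intro j _
      have hsub : row j ⊆ (fun x => pt x (a j)) '' Icc (-R) R := by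
        rintro z ⟨hzK, hz1⟩
        have hz1' : z 1 = a j := hz1
        refine ⟨z 0, ?_, ?_⟩
        · have := hKR hzK
          rw [mem_closedBall_zero_iff] at this
          rw [mem_Icc, ← abs_le]
          calc |z 0| = ‖z 0‖ := rfl
            _ ≤ ‖z‖ := PiLp.norm_apply_le z 0
            _ ≤ R := this
        · rw [eq_pt z]
          simp only [pt_zero]
          rw [hz1']
      refine (measure_mono hsub).trans_lt ?_
      rw [(isometry_pt (a j)).hausdorffMeasure_image (Or.inl zero_le_one), hausdorffMeasure_real]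
      simp
    exact (measure_union_lt_top h1 h2).ne
  · intro j hj
    apply subset_union_of_subset_right
    exact subset_biUnion_of_mem (s := (Finset.range n : Set ℕ)) (u := row)
        (by simpa using hj)

end Pool.Agent.Helper46.Stiff
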