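import Pool.Agent.Helper46.Stiff.Cont

/-! # Almost every level set of a 1-Lipschitz function on a set of finite length is finite -/

open MeasureTheory Set Metric Filter Topology
open scoped ENNReal NNReal

namespace Pool.Agent.Helper46.Stiff

variable {E : Type*} [MetricSpace E] [MeasurableSpace E] [BorelSpace E]

lemma exists_cover {A : Set E} (hA : μH[1] A ≠ ∞) (n : ℕ) :
    ∃ t : ℕ → Set E, A ⊆ ⋃ i, t i ∧ (∀ i, ediam (t i) ≤ ((n : ℝ≥0∞) + 1)⁻¹) ∧
      ∑' i, ediam (t i) ≤ μH[1] A + 1 := by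
  have h1 := Measure.hausdorffMeasure_apply (X := E) 1 A
  have hr : (0 : ℝ≥0∞) < ((n : ℝ≥0∞) + 1)⁻¹ := by
    rw [ENNReal.inv_pos]; finiteness
  have h2 : (⨅ (t : ℕ → Set E) (_ : A ⊆ ⋃ n, t n)
      (_ : ∀ k, ediam (t k) ≤ ((n : ℝ≥0∞) + 1)⁻¹),
          ∑' n, ⨆ _ : (t n).Nonempty, ediam (t n) ^ (1 : ℝ)) ≤ μH[1] A := by
    rw [h1]
    exact le_iSup₂_of_le (f := fun (r : ℝ≥0∞) (_ : 0 < r) =>
      ⨅ (t : ℕ → Set E) (_ : A ⊆ ⋃ n, t n)
      (_ : ∀ k, ediam (t k) ≤ r), ∑' n, ⨆ _ : (t n).Nonempty, ediam (t n) ^ (1 : ℝ)) _ hr le_rfl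
  have h3 : μH[1] A < μH[1] A + 1 := ENNReal.lt_add_right hA one_ne_zero
  have h4 := h2.trans_lt h3
  simp only [iInf_lt_iff] at h4
  obtain ⟨t, ht1, ht2, ht3⟩ := h4
  refine ⟨t, ht1, ht2, le_trans (ENNReal.tsum_le_tsum fun i => ?_) ht3.le⟩
  rcases (t i).eq_empty_or_nonempty with h | h
  · simp [h]
  · simp [h]

theorem ae_finite_level {A : Set E} (hA : μH[1] A ≠ ∞) {f : E → ℝ} (hf : LipschitzWith 1 f) :
    ∀ᵐ r ∂(volume : Measure ℝ), {x ∈ A | f x = r}.Finite := by
  choose t ht1 ht2 ht3 using exists_cover hA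
  set I : ℕ → ℕ → Set ℝ := fun n i => toMeasurable volume (f '' t n i) with hI
  have hImeas : ∀ n i, MeasurableSet (I n i) := fun n i => measurableSet_toMeasurable _ _
  have hIvol : ∀ n i, volume (I n i) ≤ ediam (t n i) := by
    intro n i
    rw [hI]
    simp only [measure_toMeasurable]
    calc volume (f '' t n i) ≤ ediam (f '' t n i) := Real.volume_le_diam _
      _ ≤ ((1 : ℝ≥0) : ℝ≥0∞) * ediam (t n i) := hf.ediam_image_le _
      _ = ediam (t n i) := by simp
  set g : ℕ → ℝ → ℝ≥0∞ := fun n r => ∑' i, (I n i).indicator (fun _ => (1 : ℝ≥0∞)) r with hg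
  have hgmeas : ∀ n, Measurable (g n) := fun n =>
    Measurable.ennreal_tsum fun i => measurable_const.indicator (hImeas n i)
  have hgint : ∀ n, ∫⁻ r, g n r ≤ μH[1] A + 1 := by
    intro n
    rw [hg]
    simp only
    rw [lintegral_tsum fun i => (measurable_const.indicator (hImeas n i)).aemeasurable]
    refine le_trans (ENNReal.tsum_le_tsum fun i => ?_) (ht3 n)
    rw [lintegral_indicator (hImeas n i)]
    simpa using hIvol n i
  have hfatou : ∫⁻ r, liminf (fun n => g n r) atTop ≤ μH[1] A + 1 := by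
    refine (lintegral_liminf_le hgmeas).trans ?_
    refine (liminf_le_liminf (Eventually.of_forall hgint)).trans ?_
    simp
  have hmeas : Measurable fun r => liminf (fun n => g n r) atTop := Measurable.liminf hgmeas
  have hae : ∀ᵐ r ∂(volume : Measure ℝ), liminf (fun n => g n r) atTop < ∞ := by
    apply ae_lt_top hmeas
    exact ne_top_of_le_ne_top (by finiteness) hfatou
  filter_upwards [hae] with r hr
  by_contra hinf
  have hinf : {x ∈ A | f x = r}.Infinite := hinf
  have key : ∀ M : ℕ, (M : ℝ≥0∞) ≤ liminf (fun n => g n r) atTop := by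
    intro M
    obtain ⟨s, hs, hcard⟩ := hinf.exists_subset_card_eq M
    have hpos : 0 < (s : Set E).einfsep := s.finite_toSet.einfsep_pos
    rw [einfsep_pos] at hpos
    obtain ⟨C, hC, hCs⟩ := hpos
    have hev : ∀ᶠ n : ℕ in atTop, ((n : ℝ≥0∞) + 1)⁻¹ < C := by
      have : Tendsto (fun n : ℕ => ((n : ℝ≥0∞) + 1)⁻¹) atTop (𝓝 0) := by
        rw [ENNReal.tendsto_inv_iff.symm]
        simp only [inv_inv, ENNReal.inv_zero]
        have := ENNReal.tendsto_nat_nhds_top
        exact ENNReal.tendsto_nhds_top fun n =>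
          (eventually_ge_atTop (n + 1)).mono fun m hm => by
            have : (n : ℝ≥0∞) < (m : ℝ≥0∞) := by exact_mod_cast hm
            exact this.trans_le (by simp)
      exact this.eventually (gt_mem_nhds hC)
    refine le_liminf_of_le (by isBoundedDefault) ?_
    filter_upwards [hev] with n hn
    have hmem : ∀ x ∈ s, ∃ i, x ∈ t n i := fun x hx => by
      have := ht1 n (hs hx).1
      simpa using this
    choose! idx hidx using hmem
    have hinj : Set.InjOn idx s := by
      intro x hx y hy hxy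
      by_contra hne
      have h1 := hCs x hx y hy hne
      have h2 : edist x y ≤ ediam (t n (idx x)) :=
        Metric.edist_le_ediam_of_mem (hidx x hx) (hxy ▸ hidx y hy)
      exact absurd ((h1.trans h2).trans (ht2 n _)) (not_le.2 hn)
    calc (M : ℝ≥0∞) = ∑ i ∈ s.image idx, (1 : ℝ≥0∞) := by
          rw [Finset.sum_const, Finset.card_image_of_injOn hinj, hcard]; simp
      _ ≤ ∑ i ∈ s.image idx, (I n i).indicator (fun _ => (1 : ℝ≥0∞)) r := by
          apply Finset.sum_le_sum
          intro i hi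
          obtain ⟨x, hx, rfl⟩ := Finset.mem_image.1 hi
          have : r ∈ I n (idx x) := by
            apply subset_toMeasurable
            exact ⟨x, hidx x hx, (hs hx).2⟩
          rw [indicator_of_mem this]
      _ ≤ g n r := ENNReal.sum_le_tsum _
  obtain ⟨M, hM⟩ := ENNReal.exists_nat_gt hr.ne
  exact absurd (key M) (not_le.2 hM)

end Pool.Agent.Helper46.Stiff
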