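import Pool.Agent.Helper46.Stiff.Gain
import Pool.Agent.Helper46.Stiff.Ladder

/-! # A maximiser whose support has full length -/

open MeasureTheory Set Metric Filter Topology
open scoped ENNReal NNReal ContDiff

namespace Pool.Agent.Helper46.Stiff

variable {Ω : Set Plane} {u : Plane → ℝ} {R m : ℝ}

lemma continuous_sti (hu : IsTest Ω u) :
    Continuous fun μ : FiniteMeasure Plane => Sti (μ : Measure Plane) u := by
  obtain ⟨C, hC⟩ := hu.continuous_sq.bounded_above_of_compact_support hu.hasCompactSupport_sq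
  set f : BoundedContinuousFunction Plane ℝ :=
    BoundedContinuousFunction.ofNormedAddCommGroup (fun x => ‖gradient u x‖ ^ 2)
      hu.continuous_sq C hC with hf
  exact FiniteMeasure.continuous_integral_boundedContinuousFunction f

lemma lambda1_pos (hΩo : IsOpen Ω) (hne : Ω.Nonempty) (hR : 0 < R) (hΩ : Ω ⊆ closedBall 0 R)
    (hm : 0 ≤ m) (μ : Measure Plane) : 0 < lambda1 Ω m μ := by
  have : 1 / (4 * R ^ 2) ≤ lambda1 Ω m μ := by
    apply le_lambda1 hΩo hne
    intro u hu
    have h1 := poincare2 hu hR.le hΩ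
    have h2 : 0 ≤ m * Sti μ u := mul_nonneg hm sti_nonneg
    have h3 : 1 / (4 * R ^ 2) * L2 Ω u ≤ Dir Ω u := by
      rw [div_mul_eq_mul_div, one_mul, div_le_iff₀ (by positivity)]
      linarith
    linarith
  exact lt_of_lt_of_le (by positivity) this

lemma lsc_inv (hΩo : IsOpen Ω) (hne : Ω.Nonempty) (hR : 0 < R) (hΩ : Ω ⊆ closedBall 0 R)
    (hm : 0 ≤ m) : LowerSemicontinuous fun μ : FiniteMeasure Plane =>
      1 / lambda1 Ω m (μ : Measure Plane) := by
  intro μ c hc
  change c < 1 / lambda1 Ω m (μ : Measure Plane) at hc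
  rcases le_or_gt c 0 with h0 | h0
  · exact Eventually.of_forall fun ν =>
      h0.trans_lt (one_div_pos.2 (lambda1_pos hΩo hne hR hΩ hm _))
  have hpos := lambda1_pos hΩo hne hR hΩ hm (μ : Measure Plane)
  have h1 : lambda1 Ω m (μ : Measure Plane) < 1 / c := by
    rw [lt_div_iff₀ hpos] at hc
    rw [lt_div_iff₀ h0]; linarith
  obtain ⟨u, hu, hu0, hr⟩ := exists_of_lambda1_lt hΩo hne h1
  have hcont : Continuous fun ν : FiniteMeasure Plane => rayleigh Ω m (ν : Measure Plane) u := by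
    simp_rw [rayleigh_eq]
    exact (continuous_const.add (continuous_const.mul (continuous_sti hu))).div_const _
  filter_upwards [(hcont.tendsto μ).eventually (gt_mem_nhds hr)] with ν hν
  have h2 := (lambda1_le (μ := (ν : Measure Plane)) hm hu hu0).trans_lt hν
  have hpos2 := lambda1_pos hΩo hne hR hΩ hm (ν : Measure Plane)
  show c < 1 / lambda1 Ω m (ν : Measure Plane)
  rw [lt_div_iff₀ hpos2]
  rw [lt_div_iff₀ h0] at h2
  linarith

/-- the functional to be minimised -/
noncomputable def J (Ω : Set Plane) (m κ : ℝ) (μ : FiniteMeasure Plane) : ℝ :=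
  1 / lambda1 Ω m (μ : Measure Plane) + κ * μ.mass

lemma lsc_J (hΩo : IsOpen Ω) (hne : Ω.Nonempty) (hR : 0 < R) (hΩ : Ω ⊆ closedBall 0 R)
    (hm : 0 ≤ m) (κ : ℝ) : LowerSemicontinuous (J Ω m κ) := by
  apply LowerSemicontinuous.add (lsc_inv hΩo hne hR hΩ hm)
  apply Continuous.lowerSemicontinuous
  exact continuous_const.mul (NNReal.continuous_coe.comp FiniteMeasure.continuous_mass)

/-- The main step: from one admissible measure that beats the zero measure. -/
theorem main_step (hΩo : IsOpen Ω) (hne : Ω.Nonempty) (hR : 0 < R) (hΩ : Ω ⊆ closedBall 0 R)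
    (hm : 0 < m) {C : ℝ≥0} {μ₁ : FiniteMeasure Plane} (hμ₁ : μ₁ ∈ Adm (closure Ω) C)
    (hJ : J Ω m (10 * (volume Ω).toReal / m) μ₁ < 1 / lambda1 Ω m 0) :
    ∃ L : ℝ, 0 < L ∧ L ≤ C ∧ ∃ μ : Measure Plane, IsMaximiser Ω m L μ ∧
      IsConnected μ.support ∧ (μH[1] : Measure Plane) μ.support = ENNReal.ofReal L := by
  have hKR : closure Ω ⊆ closedBall 0 R := closure_minimal hΩ isClosed_closedBall
  have hKc : IsCompact (closure Ω) :=
    (isCompact_closedBall 0 R).of_isClosed_subset isClosed_closure hKR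
  have hvol : volume Ω ≠ ⊤ :=
    ((measure_mono hΩ).trans_lt measure_closedBall_lt_top).ne
  have hV : 0 < (volume Ω).toReal := ENNReal.toReal_pos (hΩo.measure_pos _ hne).ne' hvol
  set V : ℝ := (volume Ω).toReal with hVdef
  set κ : ℝ := 10 * V / m with hκ
  have hκ0 : 0 < κ := by positivity
  obtain ⟨μ, hμ, hmin⟩ := ((lsc_J hΩo hne hR hΩ hm.le κ).lowerSemicontinuousOn
    (Adm (closure Ω) C)).exists_isMinOn ⟨μ₁, hμ₁⟩ (isCompact_adm hKc)
  have hminJ : ∀ ν ∈ Adm (closure Ω) C, J Ω m κ μ ≤ J Ω m κ ν := fun ν hν => hmin hν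
  have hl : 0 < lambda1 Ω m (μ : Measure Plane) := lambda1_pos hΩo hne hR hΩ hm.le _
  -- μ is not zero
  have hμ0 : (μ : Measure Plane) ≠ 0 := by
    intro h0
    have h1 := hminJ μ₁ hμ₁
    have h2 : J Ω m κ μ = 1 / lambda1 Ω m 0 := by
      have hmass : μ.mass = 0 := by
        have : ((μ.mass : ℝ≥0) : ℝ≥0∞) = 0 := by
          rw [FiniteMeasure.ennreal_mass, h0]; simp
        exact_mod_cast this
      simp only [J, hmass, h0]
      simp
    rw [h2] at h1
    exact absurd hJ (not_lt.2 h1)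
  set S : Set Plane := (μ : Measure Plane).support with hS
  have hSc : IsCompact S := isCompact_support hKc hμ.1.2
  have hSne : S.Nonempty := Measure.nonempty_support hμ0
  have hSnull : (μ : Measure Plane) Sᶜ = 0 := Measure.measure_compl_support
  set L : ℝ := (μ.mass : ℝ) with hL
  have hLuniv : (μ : Measure Plane) univ = ENNReal.ofReal L := by
    rw [hL, ENNReal.ofReal_coe_nnreal, FiniteMeasure.ennreal_mass]
  have hL0 : 0 < L := by
    have : 0 < (μ : Measure Plane) univ := by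
      rw [pos_iff_ne_zero]
      simpa [Measure.measure_univ_eq_zero] using hμ0
    rw [hLuniv, ENNReal.ofReal_pos] at this
    exact this
  have hLC : L ≤ C := by exact_mod_cast hμ.1.1
  have hlen_le : (μH[1] : Measure Plane) S ≤ (μ : Measure Plane) univ := by
    have := adm_length_le hμ MeasurableSet.univ
    rwa [inter_univ] at this
  have hlen_fin : (μH[1] : Measure Plane) S ≠ ⊤ :=
    ne_top_of_le_ne_top (measure_ne_top _ _) hlen_le
  -- full length
  have hfull : (μH[1] : Measure Plane) S = (μ : Measure Plane) univ := by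
    by_contra hneq
    have hlt : (μH[1] : Measure Plane) S < (μ : Measure Plane) univ := lt_of_le_of_ne hlen_le hneq
    set μ₀ : Measure Plane := (μH[1] : Measure Plane).restrict S with hμ₀
    haveI hfin0 : IsFiniteMeasure μ₀ :=
      ⟨by rw [hμ₀, Measure.restrict_apply_univ]; exact hlen_fin.lt_top⟩
    have hle : μ₀ ≤ (μ : Measure Plane) := hμ.2.2
    set ν : Measure Plane := (μ : Measure Plane) - μ₀ with hν
    have hadd : μ₀ + ν = (μ : Measure Plane) := by
      rw [add_comm]; exact Measure.sub_add_cancel_of_le hle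
    have hνle : ν ≤ (μ : Measure Plane) := Measure.sub_le
    haveI : IsFiniteMeasure ν := isFiniteMeasure_of_le _ hνle
    have hνS : ν Sᶜ = 0 := by
      have := hνle Sᶜ
      rw [hSnull] at this
      exact nonpos_iff_eq_zero.1 this
    -- μ₀ is admissible
    set μ₀' : FiniteMeasure Plane := ⟨μ₀, hfin0⟩ with hμ₀'
    have hcoe : (μ₀' : Measure Plane) = μ₀ := rfl
    have hmem : μ₀' ∈ Adm (closure Ω) C := by
      have hsupp : μ₀.support ⊆ S := by
        apply Measure.support_subset_of_isClosed hSc.isClosed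
        rw [mem_ae_iff, hμ₀, Measure.restrict_apply hSc.isClosed.measurableSet.compl]
        simp
      refine ⟨⟨?_, ?_⟩, ?_, ?_⟩
      · have h1 : ((μ₀'.mass : ℝ≥0) : ℝ≥0∞) ≤ ((μ.mass : ℝ≥0) : ℝ≥0∞) := by
          rw [FiniteMeasure.ennreal_mass, FiniteMeasure.ennreal_mass]
          exact hle univ
        have h2 : μ₀'.mass ≤ μ.mass := by exact_mod_cast h1
        exact h2.trans hμ.1.1
      · rw [hcoe]
        have := hle (closure Ω)ᶜ
        rw [hμ.1.2] at this
        exact nonpos_iff_eq_zero.1 this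
      · rw [hcoe]
        rcases S.subsingleton_or_nontrivial with hs | hnt
        · exact (hs.anti hsupp).isPreconnected
        · rw [hμ₀, support_restrict_eq hSc hμ.2.1 hnt]; exact hμ.2.1
      · rw [hcoe]
        calc (μH[1] : Measure Plane).restrict μ₀.support ≤ (μH[1] : Measure Plane).restrict S :=
              Measure.restrict_mono hsupp le_rfl
          _ = μ₀ := rfl
    have hJle := hminJ μ₀' hmem
    have hl0 : 0 < lambda1 Ω m μ₀ := lambda1_pos hΩo hne hR hΩ hm.le _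
    have hgain := gain hΩo hne hvol hm hSc hlen_fin ν hνS hl0
    rw [← hμ₀, hadd] at hgain
    have hmono : lambda1 Ω m μ₀ ≤ lambda1 Ω m (μ : Measure Plane) :=
      lambda1_mono hΩo hne hm.le hle
    set l₀ := lambda1 Ω m μ₀ with hl₀
    set l := lambda1 Ω m (μ : Measure Plane) with hldef
    set d : ℝ := (ν univ).toReal with hd
    have hmass : (μ.mass : ℝ) = μ₀'.mass + d := by
      have h1 : (μ : Measure Plane) univ = μ₀ univ + ν univ := by
        rw [← hadd, Measure.add_apply]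
      have h2 : (μ.mass : ℝ) = ((μ : Measure Plane) univ).toReal := by
        rw [← FiniteMeasure.ennreal_mass, ENNReal.coe_toReal]
      have h3 : (μ₀'.mass : ℝ) = (μ₀ univ).toReal := by
        rw [← hcoe, ← FiniteMeasure.ennreal_mass, ENNReal.coe_toReal]
      rw [h2, h3, h1, ENNReal.toReal_add (measure_ne_top _ _) (measure_ne_top _ _)]
    have hd0 : 0 < d := by
      rw [hd]
      apply ENNReal.toReal_pos _ (measure_ne_top _ _)
      intro h0
      have h1 : (μ : Measure Plane) univ = μ₀ univ + ν univ := by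
        rw [← hadd, Measure.add_apply]
      rw [h0, add_zero, hμ₀, Measure.restrict_apply_univ] at h1
      exact hneq h1.symm
    have hJ1 : 1 / l + κ * μ.mass ≤ 1 / l₀ + κ * μ₀'.mass := hJle
    rw [hmass] at hJ1
    have h3 : 1 / l₀ - 1 / l ≤ 9 * V / m * d := by
      rw [div_sub_div _ _ hl0.ne' hl.ne', div_le_iff₀ (mul_pos hl0 hl)]
      have e1 : l - l₀ ≤ 9 * l₀ ^ 2 * V / m * d := by linarith
      have e2 : 9 * l₀ ^ 2 * V / m * d ≤ 9 * V / m * d * (l₀ * l) := by
        have : l₀ ^ 2 ≤ l₀ * l := by rw [sq]; gcongr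
        calc 9 * l₀ ^ 2 * V / m * d = 9 * V / m * d * l₀ ^ 2 := by ring
          _ ≤ _ := by gcongr
      linarith
    have h4 : 9 * V / m * d < κ * d := by
      rw [hκ]
      gcongr
      linarith
    nlinarith
  refine ⟨L, hL0, hLC, (μ : Measure Plane), ⟨?_, ?_⟩, ⟨hSne, hμ.2.1⟩, ?_⟩
  · exact { finite := inferInstance
            supported := hμ.1.2
            mass := hLuniv.le
            connected := hμ.2.1
            density := hμ.2.2 }
  · intro ν hν
    haveI := hν.finite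
    set ν' : FiniteMeasure Plane := ⟨ν, hν.finite⟩ with hν'
    have hcoe : (ν' : Measure Plane) = ν := rfl
    have hmassle : (ν'.mass : ℝ) ≤ L := by
      have h1 : ((ν'.mass : ℝ≥0) : ℝ≥0∞) ≤ ENNReal.ofReal L := by
        rw [FiniteMeasure.ennreal_mass]; exact hν.mass
      have h2 := ENNReal.toReal_mono (by finiteness) h1
      rwa [ENNReal.coe_toReal, ENNReal.toReal_ofReal hL0.le] at h2
    have hmem : ν' ∈ Adm (closure Ω) C := by
      refine ⟨⟨?_, hν.supported⟩, hν.connected, hν.density⟩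
      exact_mod_cast hmassle.trans hLC
    have h1 := hminJ ν' hmem
    have h2 : 1 / lambda1 Ω m (μ : Measure Plane) + κ * L ≤ 1 / lambda1 Ω m ν + κ * ν'.mass := h1
    have h3 : κ * ν'.mass ≤ κ * L := by gcongr
    have h4 : 1 / lambda1 Ω m (μ : Measure Plane) ≤ 1 / lambda1 Ω m ν := by linarith
    exact (one_div_le_one_div hl (lambda1_pos hΩo hne hR hΩ hm.le _)).1 h4
  · rw [← hS, hfull, hLuniv]

theorem main (hconv : Convex ℝ Ω) (hΩo : IsOpen Ω) (hne : Ω.Nonempty)
    (hb : Bornology.IsBounded Ω) :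
    ∃ m₀ : ℝ, 0 < m₀ ∧ ∀ m : ℝ, m₀ ≤ m → ∃ L : ℝ, 0 < L ∧ ∃ μ : Measure Plane,
      IsMaximiser Ω m L μ ∧ IsConnected μ.support ∧
      (μH[1] : Measure Plane) μ.support = ENNReal.ofReal L := by
  obtain ⟨R', hR'⟩ := hb.subset_closedBall 0
  set R : ℝ := max R' 1 with hRdef
  have hR : 0 < R := lt_of_lt_of_le one_pos (le_max_right _ _)
  have hΩ : Ω ⊆ closedBall 0 R := hR'.trans (closedBall_subset_closedBall (le_max_left _ _))
  have hvol : volume Ω ≠ ⊤ :=
    ((measure_mono hΩ).trans_lt measure_closedBall_lt_top).ne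
  set V : ℝ := (volume Ω).toReal with hVdef
  have hV : 0 < V := ENNReal.toReal_pos (hΩo.measure_pos _ hne).ne' hvol
  -- an upper bound for the unstiffened eigenvalue
  obtain ⟨φ, hφ, hφ0⟩ := exists_test_ne_zero hΩo hne
  set M₀ : ℝ := Dir Ω φ / L2 Ω φ + 1 with hM₀
  have hM₀pos : 0 < M₀ := by
    have : 0 ≤ Dir Ω φ / L2 Ω φ := div_nonneg dir_nonneg l2_nonneg
    linarith
  have hbase : ∀ m : ℝ, 0 ≤ m → lambda1 Ω m 0 ≤ M₀ := by
    intro m hm
    have h1 := lambda1_le (μ := (0 : Measure Plane)) hm hφ hφ0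
    rw [rayleigh_eq] at h1
    have h2 : Sti (0 : Measure Plane) φ = 0 := by simp [Sti]
    rw [h2, mul_zero, add_zero] at h1
    linarith
  -- the number of rows
  obtain ⟨n, hn⟩ := exists_nat_gt (max 1 (2 * M₀ * (8 * R ^ 2)))
  have hn1 : (1 : ℝ) < n := (le_max_left _ _).trans_lt hn
  have hn0 : 0 < n := by
    have : (0 : ℝ) < n := by linarith
    exact_mod_cast this
  have hn' : (0 : ℝ) < n := by exact_mod_cast hn0
  have hn2 : 2 * M₀ * (8 * R ^ 2) ≤ (n : ℝ) ^ 2 := by
    have h1 : 2 * M₀ * (8 * R ^ 2) < n := (le_max_right _ _).trans_lt hn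
    nlinarith
  obtain ⟨S, hSc, hSp, hSnt, hSK, hSlen, hSrow⟩ := exists_ladder hconv hΩo hne hR hΩ hn0
  haveI hfin : IsFiniteMeasure ((μH[1] : Measure Plane).restrict S) :=
    ⟨by rw [Measure.restrict_apply_univ]; exact hSlen.lt_top⟩
  set μ₁ : FiniteMeasure Plane := ⟨(μH[1] : Measure Plane).restrict S, hfin⟩ with hμ₁
  have hcoe : (μ₁ : Measure Plane) = (μH[1] : Measure Plane).restrict S := rfl
  have hmem : μ₁ ∈ Adm (closure Ω) μ₁.mass := by
    refine ⟨⟨le_rfl, ?_⟩, ?_, ?_⟩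
    · rw [hcoe, Measure.restrict_apply isClosed_closure.measurableSet.compl]
      have : (closure Ω)ᶜ ∩ S = ∅ := by
        rw [← disjoint_iff_inter_eq_empty]
        exact disjoint_compl_left_iff_subset.2 hSK
      rw [this, measure_empty]
    · rw [hcoe, support_restrict_eq hSc hSp hSnt]; exact hSp
    · rw [hcoe, support_restrict_eq hSc hSp hSnt]
  set ℓ : ℝ := (μ₁.mass : ℝ) with hℓ
  have hℓ0 : 0 ≤ ℓ := NNReal.coe_nonneg _
  refine ⟨2 * M₀ * (16 * R ^ 3) + 20 * V * ℓ * M₀ + 1, by positivity, fun m hm => ?_⟩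
  have hm1 : 2 * M₀ * (16 * R ^ 3) ≤ m := by
    have : 0 ≤ 20 * V * ℓ * M₀ := by positivity
    linarith
  have hm2 : 20 * V * ℓ * M₀ < m := by
    have : 0 ≤ 2 * M₀ * (16 * R ^ 3) := by positivity
    linarith
  have hm0 : 0 < m := by
    have : 0 ≤ 2 * M₀ * (16 * R ^ 3) + 20 * V * ℓ * M₀ := by positivity
    linarith
  have hlow : 2 * M₀ ≤ lambda1 Ω m (μ₁ : Measure Plane) := by
    apply le_lambda1 hΩo hne
    intro u hu
    have h1 := ladder2 hu hR.le hΩ hn0
    have h2 := rows_integral hu hR hn0 hSc.isClosed.measurableSet hSlen hSrow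
    rw [← hcoe] at h2
    have h3 : L2 Ω u ≤ 16 * R ^ 3 / n * Sti (μ₁ : Measure Plane) u + 8 * R ^ 2 / n ^ 2 * Dir Ω u := by
      calc L2 Ω u ≤ _ := h1
        _ ≤ 2 * (2 * R / n) * (4 * R ^ 2) * Sti (μ₁ : Measure Plane) u +
            2 * (2 * R / n) ^ 2 * Dir Ω u := by gcongr
        _ = _ := by ring
    have hS0 : 0 ≤ Sti (μ₁ : Measure Plane) u := sti_nonneg
    have hD0 : 0 ≤ Dir Ω u := dir_nonneg
    have h4 : 2 * M₀ * (16 * R ^ 3 / n) ≤ m := by
      calc 2 * M₀ * (16 * R ^ 3 / n) = 2 * M₀ * (16 * R ^ 3) / n := by ring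
        _ ≤ 2 * M₀ * (16 * R ^ 3) := div_le_self (by positivity) hn1.le
        _ ≤ m := hm1
    have h5 : 2 * M₀ * (8 * R ^ 2 / n ^ 2) ≤ 1 := by
      rw [← mul_div_assoc, div_le_one (by positivity)]
      exact hn2
    calc 2 * M₀ * L2 Ω u ≤ 2 * M₀ * (16 * R ^ 3 / n * Sti (μ₁ : Measure Plane) u +
          8 * R ^ 2 / n ^ 2 * Dir Ω u) := by gcongr
      _ = 2 * M₀ * (16 * R ^ 3 / n) * Sti (μ₁ : Measure Plane) u +
          2 * M₀ * (8 * R ^ 2 / n ^ 2) * Dir Ω u := by ring
      _ ≤ m * Sti (μ₁ : Measure Plane) u + 1 * Dir Ω u := by gcongr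
      _ = _ := by ring
  have hJ : J Ω m (10 * (volume Ω).toReal / m) μ₁ < 1 / lambda1 Ω m 0 := by
    have hpos0 : 0 < lambda1 Ω m 0 := lambda1_pos hΩo hne hR hΩ hm0.le _
    have h1 : 1 / M₀ ≤ 1 / lambda1 Ω m 0 := one_div_le_one_div_of_le hpos0 (hbase m hm0.le)
    have h2 : 1 / lambda1 Ω m (μ₁ : Measure Plane) ≤ 1 / (2 * M₀) :=
      one_div_le_one_div_of_le (by positivity) hlow
    have h3 : 10 * V / m * ℓ < 1 / (2 * M₀) := by
      rw [div_mul_eq_mul_div, div_lt_div_iff₀ hm0 (by positivity)]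
      linarith
    have h4 : 1 / (2 * M₀) + 1 / (2 * M₀) = 1 / M₀ := by field_simp; norm_num
    show 1 / lambda1 Ω m (μ₁ : Measure Plane) + 10 * V / m * ℓ < 1 / lambda1 Ω m 0
    linarith
  obtain ⟨L, hL0, -, μ, hμ⟩ := main_step hΩo hne hR hΩ hm0 hmem hJ
  exact ⟨L, hL0, μ, hμ⟩

end Pool.Agent.Helper46.Stiff
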