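import Mathlib

/-! # One-dimensional inequalities -/

open MeasureTheory Set Metric Filter Topology
open scoped ENNReal NNReal ContDiff

namespace Pool.Agent.Helper46.Stiff

lemma sq_intervalIntegral_le {g : ℝ → ℝ} (hg : Continuous g) {a b : ℝ} (hab : a ≤ b) :
    (∫ t in a..b, g t) ^ 2 ≤ (b - a) * ∫ t in a..b, g t ^ 2 := by
  rcases hab.eq_or_lt with rfl | hab'
  · simp
  have hL : 0 < b - a := by linarith
  set I := ∫ t in a..b, g t with hI
  set J := ∫ t in a..b, g t ^ 2 with hJ
  have h0 : 0 ≤ ∫ t in a..b, (g t - I / (b - a)) ^ 2 :=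
    intervalIntegral.integral_nonneg hab fun _ _ => sq_nonneg _
  have h1 : ∫ t in a..b, (g t - I / (b - a)) ^ 2 = J - 2 * (I / (b - a)) * I +
      (b - a) * (I / (b - a)) ^ 2 := by
    have e : ∀ t, (g t - I / (b - a)) ^ 2 = g t ^ 2 - 2 * (I / (b - a)) * g t +
      (I / (b - a)) ^ 2 := fun t => by ring
    simp_rw [e]
    have i1 : IntervalIntegrable (fun t => g t ^ 2) volume a b := (hg.pow 2).intervalIntegrable _ _
    have i2 : IntervalIntegrable (fun t => 2 * (I / (b - a)) * g t) volume a b :=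
      (continuous_const.mul hg).intervalIntegrable _ _
    have i3 : IntervalIntegrable (fun _ : ℝ => (I / (b - a)) ^ 2) volume a b :=
      continuous_const.intervalIntegrable _ _
    rw [intervalIntegral.integral_add (i1.sub i2) i3, intervalIntegral.integral_sub i1 i2,
      intervalIntegral.integral_const_mul, intervalIntegral.integral_const, smul_eq_mul]
  rw [h1] at h0
  have h2 : J - 2 * (I / (b - a)) * I + (b - a) * (I / (b - a)) ^ 2 = J - I ^ 2 / (b - a) := by
    field_simp; ring
  rw [h2, sub_nonneg, div_le_iff₀ hL] at h0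
  linarith

variable {f : ℝ → ℝ}

lemma eq_add_integral (hf : ContDiff ℝ 1 f) (a t : ℝ) : f t = f a + ∫ s in a..t, deriv f s := by
  rw [intervalIntegral.integral_deriv_eq_sub (fun x _ => (hf.differentiable one_ne_zero).differentiableAt)
    ((hf.continuous_deriv le_rfl).intervalIntegrable _ _)]
  ring

lemma integral_mono_interval' {g : ℝ → ℝ} (hg : Continuous g) (h0 : ∀ t, 0 ≤ g t) {a b t : ℝ}
    (hat : a ≤ t) (htb : t ≤ b) : ∫ s in a..t, g s ≤ ∫ s in a..b, g s :=
  intervalIntegral.integral_mono_interval le_rfl hat htb (Eventually.of_forall h0)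
    (hg.intervalIntegrable _ _)

lemma sq_le_strip (hf : ContDiff ℝ 1 f) {a b t : ℝ} (hat : a ≤ t) (htb : t ≤ b) :
    f t ^ 2 ≤ 2 * f a ^ 2 + 2 * (b - a) * ∫ s in a..b, deriv f s ^ 2 := by
  have hc := hf.continuous_deriv le_rfl
  have h1 := eq_add_integral hf a t
  have h2 := sq_intervalIntegral_le hc hat
  have h3 : ∫ s in a..t, deriv f s ^ 2 ≤ ∫ s in a..b, deriv f s ^ 2 :=
    integral_mono_interval' (hc.pow 2) (fun _ => sq_nonneg _) hat htb
  have h4 : 0 ≤ ∫ s in a..t, deriv f s ^ 2 :=
    intervalIntegral.integral_nonneg hat fun _ _ => sq_nonneg _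
  have hba : 0 ≤ b - a := by linarith
  set I := ∫ s in a..t, deriv f s
  have h5 : I ^ 2 ≤ (b - a) * ∫ s in a..b, deriv f s ^ 2 := by
    refine h2.trans ?_
    gcongr
  rw [h1]
  nlinarith [sq_nonneg (f a - I)]

lemma integral_strip (hf : ContDiff ℝ 1 f) {a b : ℝ} (hab : a ≤ b) :
    ∫ t in a..b, f t ^ 2 ≤ 2 * (b - a) * f a ^ 2 +
      2 * (b - a) ^ 2 * ∫ s in a..b, deriv f s ^ 2 := by
  have i1 : IntervalIntegrable (fun t => f t ^ 2) volume a b :=
    (hf.continuous.pow 2).intervalIntegrable _ _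
  have i2 : IntervalIntegrable
      (fun _ : ℝ => 2 * f a ^ 2 + 2 * (b - a) * ∫ s in a..b, deriv f s ^ 2) volume a b :=
    continuous_const.intervalIntegrable _ _
  have h := intervalIntegral.integral_mono_on hab i1 i2 (fun t ht => sq_le_strip hf ht.1 ht.2)
  rw [intervalIntegral.integral_const, smul_eq_mul] at h
  refine h.trans (le_of_eq ?_)
  ring

/-- support in `[-R, R]` -/
def SuppIn (R : ℝ) (f : ℝ → ℝ) : Prop := ∀ t, R < |t| → f t = 0

lemma integral_eq_interval {g : ℝ → ℝ} {R : ℝ} (hR : 0 ≤ R) (h : ∀ t, R < |t| → g t = 0) :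
    ∫ t, g t = ∫ t in (-R)..R, g t := by
  rw [intervalIntegral.integral_of_le (by linarith), ← integral_Icc_eq_integral_Ioc]
  symm
  apply setIntegral_eq_integral_of_forall_compl_eq_zero
  intro t ht
  apply h
  by_contra hcon
  apply ht
  rw [not_lt, abs_le] at hcon
  exact hcon

lemma deriv_suppIn {R : ℝ} (h : SuppIn R f) : SuppIn R (deriv f) := by
  intro t ht
  have : f =ᶠ[𝓝 t] fun _ => 0 := by
    have ho : IsOpen {s : ℝ | R < |s|} := isOpen_lt continuous_const continuous_abs
    filter_upwards [ho.mem_nhds ht] with s hs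
    exact h s hs
  rw [this.deriv_eq]; simp

/-- Poincaré inequality on the line. -/
lemma poincare1 (hf : ContDiff ℝ 1 f) {R : ℝ} (hR : 0 ≤ R) (hs : SuppIn R f) :
    ∫ t, f t ^ 2 ≤ 4 * R ^ 2 * ∫ t, deriv f t ^ 2 := by
  have hd := deriv_suppIn hs
  rw [integral_eq_interval hR (g := fun t => f t ^ 2) (fun t ht => by simp [hs t ht]),
    integral_eq_interval hR (g := fun t => deriv f t ^ 2) (fun t ht => by simp [hd t ht])]
  have hc := hf.continuous_deriv le_rfl
  have hfR : f (-R) = 0 := by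
    -- by continuity
    have hlim : Tendsto f (𝓝[<] (-R)) (𝓝 (f (-R))) :=
      hf.continuous.continuousAt.mono_left nhdsWithin_le_nhds
    have hlim2 : Tendsto f (𝓝[<] (-R)) (𝓝 0) := by
      apply tendsto_const_nhds.congr'
      filter_upwards [self_mem_nhdsWithin] with t ht
      have ht' : t < -R := ht
      symm
      apply hs
      rw [abs_of_neg (by linarith)]; linarith
    exact tendsto_nhds_unique hlim hlim2
  have hpt : ∀ t ∈ Icc (-R) R, f t ^ 2 ≤ 2 * R * ∫ s in (-R)..R, deriv f s ^ 2 := by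
    intro t ht
    have h1 := eq_add_integral hf (-R) t
    rw [hfR, zero_add] at h1
    have h2 := sq_intervalIntegral_le hc ht.1
    have h3 : ∫ s in (-R)..t, deriv f s ^ 2 ≤ ∫ s in (-R)..R, deriv f s ^ 2 :=
      integral_mono_interval' (hc.pow 2) (fun _ => sq_nonneg _) ht.1 ht.2
    have h4 : 0 ≤ ∫ s in (-R)..t, deriv f s ^ 2 :=
      intervalIntegral.integral_nonneg ht.1 fun _ _ => sq_nonneg _
    rw [h1]
    refine h2.trans ?_
    have : t - -R ≤ 2 * R := by linarith [ht.2]
    have hR' : 0 ≤ t - -R := by linarith [ht.1]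
    gcongr
  have i1 : IntervalIntegrable (fun t => f t ^ 2) volume (-R) R :=
    (hf.continuous.pow 2).intervalIntegrable _ _
  have i2 : IntervalIntegrable
      (fun _ : ℝ => 2 * R * ∫ s in (-R)..R, deriv f s ^ 2) volume (-R) R :=
    continuous_const.intervalIntegrable _ _
  have h := intervalIntegral.integral_mono_on (by linarith : -R ≤ R) i1 i2 hpt
  rw [intervalIntegral.integral_const, smul_eq_mul] at h
  refine h.trans (le_of_eq ?_)
  ring

/-- the ladder inequality on the line -/
lemma ladder1 (hf : ContDiff ℝ 1 f) {R : ℝ} (hR : 0 ≤ R) (hs : SuppIn R f) {n : ℕ} (hn : 0 < n) :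
    ∫ t, f t ^ 2 ≤ 2 * (2 * R / n) * ∑ j ∈ Finset.range n, f (-R + j * (2 * R / n)) ^ 2 +
      2 * (2 * R / n) ^ 2 * ∫ t, deriv f t ^ 2 := by
  have hd := deriv_suppIn hs
  have hn' : (0 : ℝ) < n := by exact_mod_cast hn
  rw [integral_eq_interval hR (g := fun t => f t ^ 2) (fun t ht => by simp [hs t ht]),
    integral_eq_interval hR (g := fun t => deriv f t ^ 2) (fun t ht => by simp [hd t ht])]
  have hc := hf.continuous_deriv le_rfl
  set h : ℝ := 2 * R / n with hh
  have hh0 : 0 ≤ h := by positivity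
  set a : ℕ → ℝ := fun j => -R + j * h with ha
  have ha0 : a 0 = -R := by simp [ha]
  have han : a n = R := by
    simp only [ha, hh]; field_simp; ring
  have e1 : ∫ t in (-R)..R, f t ^ 2 = ∑ j ∈ Finset.range n, ∫ t in (a j)..(a (j + 1)), f t ^ 2 := by
    have i1 : ∀ k < n, IntervalIntegrable (fun t => f t ^ 2) volume (a k) (a (k + 1)) :=
      fun k _ => (hf.continuous.pow 2).intervalIntegrable _ _
    rw [intervalIntegral.sum_integral_adjacent_intervals i1, ha0, han]
  have e2 : ∫ t in (-R)..R, deriv f t ^ 2 =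
      ∑ j ∈ Finset.range n, ∫ t in (a j)..(a (j + 1)), deriv f t ^ 2 := by
    have i1 : ∀ k < n, IntervalIntegrable (fun t => deriv f t ^ 2) volume (a k) (a (k + 1)) :=
      fun k _ => (hc.pow 2).intervalIntegrable _ _
    rw [intervalIntegral.sum_integral_adjacent_intervals i1, ha0, han]
  rw [e1, e2, Finset.mul_sum, Finset.mul_sum, ← Finset.sum_add_distrib]
  apply Finset.sum_le_sum
  intro j _
  have hstep : a (j + 1) - a j = h := by simp only [ha]; push_cast; ring
  have := integral_strip hf (a := a j) (b := a (j + 1)) (by linarith)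
  rw [hstep] at this
  exact this

end Pool.Agent.Helper46.Stiff
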