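import Pool.Agent.Helper46.Stiff.Level
import Pool.Agent.Helper46.Stiff.Comp

/-! # Decomposition of a continuum into boundedly many small continua -/

open MeasureTheory Set Metric Filter Topology
open scoped ENNReal NNReal

namespace Pool.Agent.Helper46.Stiff

variable {E : Type*} [MetricSpace E] [MeasurableSpace E] [BorelSpace E]

lemma finite_hausdorff_null {F : Set E} (hF : F.Finite) : μH[1] F = 0 := by
  haveI := Measure.nullSingletonClass_hausdorff E one_pos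
  exact hF.measure_zero _

theorem piece_step {X : Set E} (hXc : IsCompact X) (hX : IsPreconnected X)
    (hfin : μH[1] X ≠ ∞) {δ : ℝ} (hδ : 0 < δ) (hdiam : ENNReal.ofReal (4 * δ) < ediam X) :
    ∃ (Y : Set E) (𝒵 : Finset (Set E)),
      IsCompact Y ∧ IsPreconnected Y ∧ Y ⊆ X ∧ ediam Y ≤ ENNReal.ofReal (4 * δ) ∧
      ENNReal.ofReal (δ / 2) ≤ μH[1] Y ∧
      (∀ Z ∈ 𝒵, IsCompact Z ∧ IsPreconnected Z ∧ Z ⊆ X ∧ ENNReal.ofReal δ ≤ μH[1] Z) ∧
      X ⊆ Y ∪ ⋃ Z ∈ 𝒵, Z ∧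
      ∀ B : Set E, MeasurableSet B →
        μH[1] (Y ∩ B) + ∑ Z ∈ 𝒵, μH[1] (Z ∩ B) ≤ μH[1] (X ∩ B) := by
  classical
  -- a point and a distant point
  obtain ⟨x, hx⟩ : X.Nonempty := by
    rw [nonempty_iff_ne_empty]; rintro rfl; simp at hdiam
  obtain ⟨z, hz, hxz⟩ : ∃ z ∈ X, 2 * δ < dist x z := by
    by_contra hcon
    push Not at hcon
    refine absurd hdiam (not_lt.2 (Metric.ediam_le fun a ha b hb => ?_))
    rw [edist_dist]
    apply ENNReal.ofReal_le_ofReal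
    calc dist a b ≤ dist a x + dist x b := dist_triangle _ _ _
      _ ≤ 2 * δ + 2 * δ := by
        gcongr
        · rw [dist_comm]; exact hcon a ha
        · exact hcon b hb
      _ = 4 * δ := by ring
  -- a good radius
  obtain ⟨r, hrI, hrfin⟩ : ∃ r ∈ Ioo (δ / 2) δ, {y ∈ X | dist x y = r}.Finite := by
    have hae := ae_finite_level hfin (LipschitzWith.dist_right x)
    have hpos : (volume : Measure ℝ) (Ioo (δ / 2) δ) ≠ 0 := by
      rw [Real.volume_Ioo]; simp; linarith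
    by_contra hcon
    push Not at hcon
    apply hpos
    apply measure_mono_null _ (ae_iff.1 hae)
    intro r hr
    exact hcon r hr
  have hr0 : 0 < r := by linarith [hrI.1]
  set C₀ : Set E := X ∩ closedBall x r with hC₀
  set C₁ : Set E := X ∩ {y | r ≤ dist x y} with hC₁
  set F : Set E := {y ∈ X | dist x y = r} with hF
  have hC₀c : IsCompact C₀ := hXc.inter_right isClosed_closedBall
  have hC₁c : IsCompact C₁ := hXc.inter_right (isClosed_le continuous_const (by fun_prop))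
  have hXC : X = C₁ ∪ C₀ := by
    apply subset_antisymm
    · intro y hy
      rcases le_total r (dist x y) with h | h
      · exact Or.inl ⟨hy, h⟩
      · exact Or.inr ⟨hy, by rw [mem_closedBall, dist_comm]; exact h⟩
    · rintro y (hy | hy) <;> exact hy.1
  have hCF : C₀ ∩ C₁ = F := by
    ext y
    simp only [hC₀, hC₁, hF, mem_inter_iff, mem_closedBall, mem_setOf_eq, dist_comm y x]
    constructor
    · rintro ⟨⟨h1, h2⟩, -, h3⟩; exact ⟨h1, le_antisymm h2 h3⟩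
    · rintro ⟨h1, h2⟩; exact ⟨⟨h1, h2.le⟩, h1, h2.ge⟩
  have hxC₀ : x ∈ C₀ := ⟨hx, by simp [hr0.le]⟩
  have hC₁ne : C₁.Nonempty := ⟨z, hz, by
    show r ≤ dist x z
    linarith [hrI.2]⟩
  have hmeet0 : ∀ w ∈ C₀, (connectedComponentIn C₀ w ∩ F).Nonempty := by
    intro w hw
    obtain ⟨p, hp1, hp2⟩ := component_meets hX hC₀c hC₁c.isClosed hC₁ne hXC hw
    exact ⟨p, hp1, by rw [← hCF]; exact ⟨connectedComponentIn_subset _ _ hp1, hp2⟩⟩
  have hFC₀ : F ⊆ C₀ := by rw [← hCF]; exact inter_subset_left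
  have hC₀un := eq_biUnion_component hFC₀ hmeet0
  set Y₀ : Set E := connectedComponentIn C₀ x with hY₀
  have hY₀c : IsCompact Y₀ := isCompact_connectedComponentIn hC₀c x
  have hY₀p : IsPreconnected Y₀ := isPreconnected_connectedComponentIn
  have hxY₀ : x ∈ Y₀ := mem_connectedComponentIn hxC₀
  have hY₀C : Y₀ ⊆ C₀ := connectedComponentIn_subset _ _
  have hY₀X : Y₀ ⊆ X := hY₀C.trans inter_subset_left
  set F' : Set E := {p ∈ F | connectedComponentIn C₀ p ≠ Y₀} with hF'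
  have hF'fin : F'.Finite := hrfin.subset (sep_subset _ _)
  set W : Set E := C₁ ∪ ⋃ p ∈ F', connectedComponentIn C₀ p with hW
  have hWc : IsCompact W :=
    hC₁c.union (hF'fin.isCompact_biUnion fun p _ => isCompact_connectedComponentIn hC₀c p)
  have hWX : W ⊆ X := by
    rintro y (hy | hy)
    · exact hy.1
    · simp only [mem_iUnion] at hy
      obtain ⟨p, -, hp⟩ := hy
      exact (connectedComponentIn_subset _ _ hp).1
  have hXYW : X = Y₀ ∪ W := by
    apply subset_antisymm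
    · intro y hy
      rw [hXC] at hy
      rcases hy with hy | hy
      · exact Or.inr (Or.inl hy)
      · rw [hC₀un] at hy
        simp only [mem_iUnion] at hy
        obtain ⟨p, hpF, hp⟩ := hy
        by_cases hpY : connectedComponentIn C₀ p = Y₀
        · left; rw [← hpY]; exact hp
        · right; right
          simp only [mem_iUnion]
          exact ⟨p, ⟨hpF, hpY⟩, hp⟩
    · exact union_subset hY₀X hWX
  have hYW : Y₀ ∩ W ⊆ F := by
    rintro y ⟨hy1, hy2 | hy2⟩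
    · rw [← hCF]; exact ⟨hY₀C hy1, hy2⟩
    · simp only [mem_iUnion] at hy2
      obtain ⟨p, hpF, hp⟩ := hy2
      exact absurd hy1 (Set.disjoint_left.1 (disjoint_components hpF.2) hp)
  -- length of Y₀
  have hY₀len : ENNReal.ofReal (δ / 2) ≤ μH[1] Y₀ := by
    obtain ⟨p, hp1, hp2⟩ := hmeet0 x hxC₀
    calc ENNReal.ofReal (δ / 2) ≤ ENNReal.ofReal r := ENNReal.ofReal_le_ofReal hrI.1.le
      _ ≤ μH[1] (Y₀ ∩ closedBall x r) := ofReal_le_hausdorff hY₀p hxY₀ hp1 hp2.2.ge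
      _ ≤ μH[1] Y₀ := measure_mono inter_subset_left
  -- components of W
  set G : Set E := Y₀ ∩ W with hG
  have hGfin : G.Finite := hrfin.subset hYW
  have hmeetW : ∀ w ∈ W, (connectedComponentIn W w ∩ G).Nonempty := by
    intro w hw
    obtain ⟨p, hp1, hp2⟩ := component_meets hX hWc hY₀c.isClosed ⟨x, hxY₀⟩ hXYW hw
    exact ⟨p, hp1, hp2, connectedComponentIn_subset _ _ hp1⟩
  have hWun := eq_biUnion_component (F := G) inter_subset_right hmeetW
  set 𝒲 : Finset (Set E) := hGfin.toFinset.image (fun p => connectedComponentIn W p) with h𝒲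
  have h𝒲mem : ∀ Z ∈ 𝒲, ∃ p ∈ G, connectedComponentIn W p = Z := by
    intro Z hZ
    simpa [h𝒲] using hZ
  have h𝒲c : ∀ Z ∈ 𝒲, IsCompact Z := by
    intro Z hZ
    obtain ⟨p, -, rfl⟩ := h𝒲mem Z hZ
    exact isCompact_connectedComponentIn hWc p
  have h𝒲p : ∀ Z ∈ 𝒲, IsPreconnected Z := by
    intro Z hZ
    obtain ⟨p, -, rfl⟩ := h𝒲mem Z hZ
    exact isPreconnected_connectedComponentIn
  have h𝒲W : ∀ Z ∈ 𝒲, Z ⊆ W := by
    intro Z hZ
    obtain ⟨p, -, rfl⟩ := h𝒲mem Z hZ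
    exact connectedComponentIn_subset _ _
  have h𝒲Y : ∀ Z ∈ 𝒲, (Y₀ ∩ Z).Nonempty := by
    intro Z hZ
    obtain ⟨p, hp, rfl⟩ := h𝒲mem Z hZ
    exact ⟨p, hp.1, mem_connectedComponentIn hp.2⟩
  have h𝒲d : ∀ Z ∈ 𝒲, ∀ Z' ∈ 𝒲, Z ≠ Z' → Disjoint Z Z' := by
    intro Z hZ Z' hZ' hne
    obtain ⟨p, hp, rfl⟩ := h𝒲mem Z hZ
    obtain ⟨q, hq, rfl⟩ := h𝒲mem Z' hZ'
    exact disjoint_components hne
  have hWsub : W ⊆ ⋃ Z ∈ 𝒲, Z := by
    intro y hy
    rw [hWun] at hy
    simp only [mem_iUnion] at hy ⊢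
    obtain ⟨p, hpG, hp⟩ := hy
    exact ⟨connectedComponentIn W p, by
      rw [h𝒲]; exact Finset.mem_image_of_mem _ (hGfin.mem_toFinset.2 hpG), hp⟩
  set small : Finset (Set E) := 𝒲.filter fun Z => ediam Z ≤ ENNReal.ofReal δ with hsmall
  set big : Finset (Set E) := 𝒲.filter fun Z => ¬ ediam Z ≤ ENNReal.ofReal δ with hbig
  have hsm : ∀ Z ∈ small, Z ∈ 𝒲 ∧ ediam Z ≤ ENNReal.ofReal δ := fun Z hZ => by
    simpa [hsmall] using hZ
  have hbg : ∀ Z ∈ big, Z ∈ 𝒲 ∧ ENNReal.ofReal δ < ediam Z := fun Z hZ => by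
    simpa [hbig] using hZ
  set Y : Set E := Y₀ ∪ ⋃ Z ∈ small, Z with hYdef
  have hYc : IsCompact Y :=
    hY₀c.union (small.isCompact_biUnion fun Z hZ => h𝒲c Z (hsm Z hZ).1)
  have hYX : Y ⊆ X := by
    apply union_subset hY₀X
    exact iUnion₂_subset fun Z hZ => (h𝒲W Z (hsm Z hZ).1).trans hWX
  have hYp : IsPreconnected Y := by
    apply isPreconnected_of_forall x
    rintro y (hy | hy)
    · exact ⟨Y₀, subset_union_left, hxY₀, hy, hY₀p⟩
    · simp only [mem_iUnion] at hy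
      obtain ⟨Z, hZ, hyZ⟩ := hy
      refine ⟨Y₀ ∪ Z, ?_, Or.inl hxY₀, Or.inr hyZ,
        hY₀p.union' (h𝒲Y Z (hsm Z hZ).1) (h𝒲p Z (hsm Z hZ).1)⟩
      apply union_subset_union_right
      exact subset_biUnion_of_mem (u := fun Z => Z) hZ
  have hYball : ∀ y ∈ Y, dist x y ≤ 2 * δ := by
    have h0 : ∀ y ∈ Y₀, dist x y ≤ δ := by
      intro y hy
      have := (hY₀C hy).2
      rw [mem_closedBall, dist_comm] at this
      linarith [hrI.2]
    rintro y (hy | hy)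
    · linarith [h0 y hy]
    · simp only [mem_iUnion] at hy
      obtain ⟨Z, hZ, hyZ⟩ := hy
      obtain ⟨p, hp1, hp2⟩ := h𝒲Y Z (hsm Z hZ).1
      have h1 : edist p y ≤ ENNReal.ofReal δ :=
        (Metric.edist_le_ediam_of_mem hp2 hyZ).trans (hsm Z hZ).2
      rw [edist_dist, ENNReal.ofReal_le_ofReal_iff hδ.le] at h1
      calc dist x y ≤ dist x p + dist p y := dist_triangle _ _ _
        _ ≤ δ + δ := add_le_add (h0 p hp1) h1
        _ = 2 * δ := by ring
  have hYdiam : ediam Y ≤ ENNReal.ofReal (4 * δ) := by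
    apply Metric.ediam_le
    intro a ha b hb
    rw [edist_dist]
    apply ENNReal.ofReal_le_ofReal
    calc dist a b ≤ dist a x + dist x b := dist_triangle _ _ _
      _ ≤ 2 * δ + 2 * δ := add_le_add (by rw [dist_comm]; exact hYball a ha) (hYball b hb)
      _ = 4 * δ := by ring
  refine ⟨Y, big, hYc, hYp, hYX, hYdiam,
    hY₀len.trans (measure_mono subset_union_left), ?_, ?_, ?_⟩
  · intro Z hZ
    obtain ⟨hZ1, hZ2⟩ := hbg Z hZ
    exact ⟨h𝒲c Z hZ1, h𝒲p Z hZ1, (h𝒲W Z hZ1).trans hWX,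
      hZ2.le.trans (ediam_le_hausdorff (h𝒲p Z hZ1))⟩
  · rw [hXYW]
    rintro y (hy | hy)
    · exact Or.inl (Or.inl hy)
    · have := hWsub hy
      simp only [mem_iUnion] at this
      obtain ⟨Z, hZ, hyZ⟩ := this
      by_cases hs : ediam Z ≤ ENNReal.ofReal δ
      · left; right
        simp only [mem_iUnion]
        exact ⟨Z, by rw [hsmall]; exact Finset.mem_filter.2 ⟨hZ, hs⟩, hyZ⟩
      · right
        simp only [mem_iUnion]
        exact ⟨Z, by rw [hbig]; exact Finset.mem_filter.2 ⟨hZ, hs⟩, hyZ⟩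
  · intro B hB
    have hsum : ∑ Z ∈ big, μH[1] (Z ∩ B) = μH[1] ((⋃ Z ∈ big, Z) ∩ B) := by
      rw [iUnion₂_inter, measure_biUnion_finset]
      · intro Z hZ Z' hZ' hne
        exact (h𝒲d Z (hbg Z hZ).1 Z' (hbg Z' hZ').1 hne).mono inter_subset_left inter_subset_left
      · intro Z hZ
        exact (h𝒲c Z (hbg Z hZ).1).isClosed.measurableSet.inter hB
    rw [hsum]
    have hint : Y ∩ (⋃ Z ∈ big, Z) ⊆ G := by
      rintro y ⟨hy1, hy2⟩
      simp only [mem_iUnion] at hy2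
      obtain ⟨Z, hZ, hyZ⟩ := hy2
      rcases hy1 with hy1 | hy1
      · exact ⟨hy1, h𝒲W Z (hbg Z hZ).1 hyZ⟩
      · simp only [mem_iUnion] at hy1
        obtain ⟨Z', hZ', hyZ'⟩ := hy1
        have hne : Z ≠ Z' := by
          rintro rfl
          exact absurd (hsm Z hZ').2 (not_le.2 (hbg Z hZ).2)
        exact absurd hyZ'
          (Set.disjoint_left.1 (h𝒲d Z (hbg Z hZ).1 Z' (hsm Z' hZ').1 hne) hyZ)
    have hbm : MeasurableSet (⋃ Z ∈ big, Z) :=
      big.measurableSet_biUnion fun Z hZ => (h𝒲c Z (hbg Z hZ).1).isClosed.measurableSet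
    have hYm : MeasurableSet Y := hYc.isClosed.measurableSet
    have hae : AEDisjoint μH[1] (Y ∩ B) ((⋃ Z ∈ big, Z) ∩ B) := by
      refine measure_mono_null ?_ (finite_hausdorff_null hGfin)
      rintro y ⟨hy1, hy2⟩
      exact hint ⟨hy1.1, hy2.1⟩
    rw [← measure_union₀ (hbm.inter hB).nullMeasurableSet hae, ← union_inter_distrib_right]
    apply measure_mono
    apply inter_subset_inter_left
    apply union_subset hYX
    exact iUnion₂_subset fun Z hZ => (h𝒲W Z (hbg Z hZ).1).trans hWX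

/-- the number of pieces -/
def bnd : ℕ → ℕ
  | 0 => 1
  | n + 1 => 1 + (n + 1) * bnd n

lemma one_le_bnd (n : ℕ) : 1 ≤ bnd n := by
  cases n <;> simp [bnd]

lemma sum_union_le {ι : Type*} [DecidableEq ι] (s t : Finset ι) (f : ι → ℝ≥0∞) :
    ∑ i ∈ s ∪ t, f i ≤ ∑ i ∈ s, f i + ∑ i ∈ t, f i := by
  rw [← Finset.sum_union_inter]
  exact le_self_add

lemma sum_biUnion_le' {ι κ : Type*} [DecidableEq ι] (s : Finset κ) (t : κ → Finset ι)
    (f : ι → ℝ≥0∞) : ∑ i ∈ s.biUnion t, f i ≤ ∑ k ∈ s, ∑ i ∈ t k, f i := by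
  classical
  induction s using Finset.induction_on with
  | empty => simp
  | insert a s ha ih =>
    rw [Finset.biUnion_insert, Finset.sum_insert ha]
    exact (sum_union_le _ _ _).trans (by gcongr)

theorem pieces {δ : ℝ} (hδ : 0 < δ) (n : ℕ) : ∀ {X : Set E}, IsCompact X → IsPreconnected X →
    μH[1] X ≤ n * ENNReal.ofReal (δ / 2) →
    ∃ 𝒬 : Finset (Set E), 𝒬.card ≤ bnd n ∧
      (∀ A ∈ 𝒬, IsCompact A ∧ IsPreconnected A ∧ A ⊆ X ∧ ediam A ≤ ENNReal.ofReal (4 * δ)) ∧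
      X ⊆ ⋃ A ∈ 𝒬, A ∧
      ∀ B : Set E, MeasurableSet B → ∑ A ∈ 𝒬, μH[1] (A ∩ B) ≤ μH[1] (X ∩ B) := by
  classical
  induction n with
  | zero =>
    intro X hXc hX hlen
    refine ⟨{X}, by simp [bnd], ?_, by simp, by simp⟩
    simp only [Finset.mem_singleton, forall_eq]
    refine ⟨hXc, hX, subset_rfl, ?_⟩
    refine (ediam_le_hausdorff hX).trans (hlen.trans ?_)
    simp
  | succ n ih =>
    intro X hXc hX hlen
    rcases le_or_gt (ediam X) (ENNReal.ofReal (4 * δ)) with hd | hd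
    · refine ⟨{X}, by simpa using one_le_bnd _, ?_, by simp, by simp⟩
      simp only [Finset.mem_singleton, forall_eq]
      exact ⟨hXc, hX, subset_rfl, hd⟩
    have hfin : μH[1] X ≠ ∞ := ne_top_of_le_ne_top (by finiteness) hlen
    obtain ⟨Y, 𝒵, hYc, hYp, hYX, hYd, hYlen, hZ, hcov, hsum⟩ := piece_step hXc hX hfin hδ hd
    have hsum1 : μH[1] Y + ∑ Z ∈ 𝒵, μH[1] Z ≤ μH[1] X := by
      simpa using hsum univ MeasurableSet.univ
    have hZfin : ∑ Z ∈ 𝒵, μH[1] Z ≤ n * ENNReal.ofReal (δ / 2) := by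
      have h1 : ENNReal.ofReal (δ / 2) + ∑ Z ∈ 𝒵, μH[1] Z ≤
          ENNReal.ofReal (δ / 2) + n * ENNReal.ofReal (δ / 2) := by
        calc _ ≤ μH[1] Y + ∑ Z ∈ 𝒵, μH[1] Z := by gcongr
          _ ≤ _ := hsum1.trans hlen
          _ = _ := by push_cast; ring
      exact (ENNReal.add_le_add_iff_left ENNReal.ofReal_ne_top).1 h1
    have hcard : 𝒵.card ≤ n + 1 := by
      have h1 : 𝒵.card * ENNReal.ofReal δ ≤ n * ENNReal.ofReal (δ / 2) := by
        calc 𝒵.card * ENNReal.ofReal δ = ∑ Z ∈ 𝒵, ENNReal.ofReal δ := by simp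
          _ ≤ ∑ Z ∈ 𝒵, μH[1] Z := Finset.sum_le_sum fun Z h => (hZ Z h).2.2.2
          _ ≤ _ := hZfin
      have h2 : (𝒵.card : ℝ) * δ ≤ n * (δ / 2) := by
        have := ENNReal.toReal_mono (by finiteness) h1
        simpa [ENNReal.toReal_mul, ENNReal.toReal_ofReal hδ.le,
          ENNReal.toReal_ofReal (half_pos hδ).le] using this
      have h3 : (𝒵.card : ℝ) ≤ n := by
        by_contra hcon
        push Not at hcon
        have : (n : ℝ) * (δ / 2) ≤ n * δ := by gcongr; linarith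
        nlinarith
      have : 𝒵.card ≤ n := by exact_mod_cast h3
      omega
    have hrec : ∀ Z ∈ 𝒵, ∃ 𝒬 : Finset (Set E), 𝒬.card ≤ bnd n ∧
      (∀ A ∈ 𝒬, IsCompact A ∧ IsPreconnected A ∧ A ⊆ Z ∧ ediam A ≤ ENNReal.ofReal (4 * δ)) ∧
      Z ⊆ ⋃ A ∈ 𝒬, A ∧
      ∀ B : Set E, MeasurableSet B → ∑ A ∈ 𝒬, μH[1] (A ∩ B) ≤ μH[1] (Z ∩ B) := by
      intro Z hZ'
      exact ih (hZ Z hZ').1 (hZ Z hZ').2.1
        ((Finset.single_le_sum (f := fun Z => μH[1] Z) (fun _ _ => zero_le) hZ').trans hZfin)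
    choose! P hP1 hP2 hP3 hP4 using hrec
    refine ⟨{Y} ∪ 𝒵.biUnion P, ?_, ?_, ?_, ?_⟩
    · calc ({Y} ∪ 𝒵.biUnion P).card ≤ ({Y} : Finset (Set E)).card + (𝒵.biUnion P).card :=
            Finset.card_union_le _ _
        _ ≤ 1 + 𝒵.card * bnd n := by
            gcongr
            · simp
            · exact Finset.card_biUnion_le_card_mul _ _ _ hP1
        _ ≤ 1 + (n + 1) * bnd n := by gcongr
        _ = bnd (n + 1) := rfl
    · intro A hA
      rw [Finset.mem_union, Finset.mem_singleton, Finset.mem_biUnion] at hA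
      rcases hA with rfl | ⟨Z, hZm, hA⟩
      · exact ⟨hYc, hYp, hYX, hYd⟩
      · obtain ⟨h1, h2, h3, h4⟩ := hP2 Z hZm A hA
        exact ⟨h1, h2, h3.trans (hZ Z hZm).2.2.1, h4⟩
    · intro y hy
      simp only [mem_iUnion, Finset.mem_union, Finset.mem_singleton, Finset.mem_biUnion]
      rcases hcov hy with hy | hy
      · exact ⟨Y, Or.inl rfl, hy⟩
      · simp only [mem_iUnion] at hy
        obtain ⟨Z, hZm, hyZ⟩ := hy
        have := hP3 Z hZm hyZ
        simp only [mem_iUnion] at this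
        obtain ⟨A, hA, hyA⟩ := this
        exact ⟨A, Or.inr ⟨Z, hZm, hA⟩, hyA⟩
    · intro B hB
      calc ∑ A ∈ {Y} ∪ 𝒵.biUnion P, μH[1] (A ∩ B)
          ≤ ∑ A ∈ {Y}, μH[1] (A ∩ B) + ∑ A ∈ 𝒵.biUnion P, μH[1] (A ∩ B) := sum_union_le _ _ _
        _ ≤ μH[1] (Y ∩ B) + ∑ Z ∈ 𝒵, ∑ A ∈ P Z, μH[1] (A ∩ B) := by
            gcongr
            · simp
            · exact sum_biUnion_le' _ _ _
        _ ≤ μH[1] (Y ∩ B) + ∑ Z ∈ 𝒵, μH[1] (Z ∩ B) := by
            gcongr with Z hZm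
            exact hP4 Z hZm B hB
        _ ≤ μH[1] (X ∩ B) := hsum B hB

end Pool.Agent.Helper46.Stiff
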