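import Pool.Agent.Helper46.Stiff.Basic
import Pool.Agent.Helper46.Stiff.OneD

/-! # Two-dimensional inequalities by slicing -/

open MeasureTheory Set Metric Filter Topology
open scoped ENNReal NNReal ContDiff

namespace Pool.Agent.Helper46.Stiff

/-- the point `(x, y)` -/
noncomputable def pt (x y : ℝ) : Plane := !₂[x, y]

@[simp] lemma pt_zero (x y : ℝ) : pt x y 0 = x := rfl
@[simp] lemma pt_one (x y : ℝ) : pt x y 1 = y := rfl

lemma eq_pt (p : Plane) : p = pt (p 0) (p 1) := by
  ext i; fin_cases i <;> simp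

lemma continuous_pt : Continuous fun p : ℝ × ℝ => pt p.1 p.2 := by
  unfold pt
  fun_prop

lemma pt_eq_add (x y : ℝ) : pt x y = pt x 0 + y • pt 0 1 := by
  ext i; fin_cases i <;> simp

lemma pt_eq_add' (x y : ℝ) : pt x y = pt 0 y + x • pt 1 0 := by
  ext i; fin_cases i <;> simp

lemma norm_pt (x y : ℝ) : ‖pt x y‖ = Real.sqrt (x ^ 2 + y ^ 2) := by
  rw [EuclideanSpace.norm_eq]
  simp [Fin.sum_univ_two]

lemma norm_pt01 : ‖pt 0 1‖ = 1 := by rw [norm_pt]; simp
lemma norm_pt10 : ‖pt 1 0‖ = 1 := by rw [norm_pt]; simp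

lemma isometry_pt (y : ℝ) : Isometry fun x => pt x y := by
  apply Isometry.of_dist_eq
  intro a b
  rw [EuclideanSpace.dist_eq, Real.dist_eq]
  simp only [Fin.sum_univ_two, pt_zero, pt_one, dist_self]
  rw [Real.dist_eq]
  simp [Real.sqrt_sq_eq_abs]

lemma volume_preserving_pt : MeasurePreserving (fun p : ℝ × ℝ => pt p.1 p.2) volume volume := by
  have h := (PiLp.volume_preserving_toLp (Fin 2)).comp (volume_preserving_finTwoArrow ℝ).symm
  convert h using 1
  · rfl
  · funext p
    rfl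

lemma integral_plane {F : Plane → ℝ} (hF : Continuous F) (hs : HasCompactSupport F) :
    ∫ p, F p = ∫ x, ∫ y, F (pt x y) := by
  have hemb : MeasurableEmbedding (fun p : ℝ × ℝ => pt p.1 p.2) := by
    have h := (MeasurableEquiv.toLp 2 (Fin 2 → ℝ)).measurableEmbedding.comp
      (MeasurableEquiv.finTwoArrow (α := ℝ)).symm.measurableEmbedding
    exact h
  rw [← volume_preserving_pt.integral_comp hemb]
  have hint : Integrable (fun p : ℝ × ℝ => F (pt p.1 p.2)) := by
    show Integrable (F ∘ fun p : ℝ × ℝ => pt p.1 p.2)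
    rw [volume_preserving_pt.integrable_comp_emb hemb (g := F)]
    exact hF.integrable_of_hasCompactSupport hs
  exact integral_prod _ hint

variable {Ω : Set Plane} {u : Plane → ℝ} {R : ℝ}

lemma u_zero_of_y (hu : IsTest Ω u) (hΩ : Ω ⊆ closedBall 0 R) {x y : ℝ} (hy : R < |y|) :
    u (pt x y) = 0 := by
  apply hu.eq_zero
  intro h
  have := hΩ h
  rw [mem_closedBall_zero_iff, norm_pt] at this
  have h2 : |y| ≤ Real.sqrt (x ^ 2 + y ^ 2) := Real.abs_le_sqrt (by nlinarith [sq_nonneg x])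
  linarith

lemma u_zero_of_x (hu : IsTest Ω u) (hΩ : Ω ⊆ closedBall 0 R) {x y : ℝ} (hx : R < |x|) :
    u (pt x y) = 0 := by
  apply hu.eq_zero
  intro h
  have := hΩ h
  rw [mem_closedBall_zero_iff, norm_pt] at this
  have h2 : |x| ≤ Real.sqrt (x ^ 2 + y ^ 2) := Real.abs_le_sqrt (by nlinarith [sq_nonneg y])
  linarith

lemma g_zero_of_y (hu : IsTest Ω u) (hΩ : Ω ⊆ closedBall 0 R) {x y : ℝ} (hy : R < |y|) :
    gradient u (pt x y) = 0 := by
  apply hu.gradient_zero
  intro h
  have := hΩ h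
  rw [mem_closedBall_zero_iff, norm_pt] at this
  have h2 : |y| ≤ Real.sqrt (x ^ 2 + y ^ 2) := Real.abs_le_sqrt (by nlinarith [sq_nonneg x])
  linarith

lemma g_zero_of_x (hu : IsTest Ω u) (hΩ : Ω ⊆ closedBall 0 R) {x y : ℝ} (hx : R < |x|) :
    gradient u (pt x y) = 0 := by
  apply hu.gradient_zero
  intro h
  have := hΩ h
  rw [mem_closedBall_zero_iff, norm_pt] at this
  have h2 : |x| ≤ Real.sqrt (x ^ 2 + y ^ 2) := Real.abs_le_sqrt (by nlinarith [sq_nonneg y])
  linarith

lemma contDiff_slice_y (hu : IsTest Ω u) (x : ℝ) : ContDiff ℝ 1 fun y => u (pt x y) := by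
  have : (fun y => u (pt x y)) = fun y => u (pt x 0 + y • pt 0 1) :=
    funext fun y => by rw [← pt_eq_add]
  rw [this]
  exact hu.contDiff1.comp (contDiff_const.add (contDiff_id.smul contDiff_const))

lemma contDiff_slice_x (hu : IsTest Ω u) (y : ℝ) : ContDiff ℝ 1 fun x => u (pt x y) := by
  have : (fun x => u (pt x y)) = fun x => u (pt 0 y + x • pt 1 0) :=
    funext fun x => by rw [← pt_eq_add']
  rw [this]
  exact hu.contDiff1.comp (contDiff_const.add (contDiff_id.smul contDiff_const))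

lemma deriv_slice_y (hu : IsTest Ω u) (x y : ℝ) :
    (deriv (fun y => u (pt x y)) y) ^ 2 ≤ ‖gradient u (pt x y)‖ ^ 2 := by
  have h1 : HasDerivAt (fun y : ℝ => pt x y) (pt 0 1) y := by
    have e : (fun y : ℝ => pt x y) = fun y => pt x 0 + y • pt 0 1 :=
      funext fun y => pt_eq_add x y
    rw [e]
    simpa using ((hasDerivAt_id y).smul_const (pt 0 1)).const_add (pt x 0)
  have h2 := (hu.differentiable (pt x y)).hasFDerivAt.comp_hasDerivAt y h1
  have h3 : deriv (fun y => u (pt x y)) y = fderiv ℝ u (pt x y) (pt 0 1) := h2.deriv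
  rw [h3, norm_gradient, ← sq_abs]
  gcongr
  have := (fderiv ℝ u (pt x y)).le_opNorm (pt 0 1)
  rwa [norm_pt01, mul_one, Real.norm_eq_abs] at this

lemma deriv_slice_x (hu : IsTest Ω u) (x y : ℝ) :
    (deriv (fun x => u (pt x y)) x) ^ 2 ≤ ‖gradient u (pt x y)‖ ^ 2 := by
  have h1 : HasDerivAt (fun x : ℝ => pt x y) (pt 1 0) x := by
    have e : (fun x : ℝ => pt x y) = fun x => pt 0 y + x • pt 1 0 :=
      funext fun x => pt_eq_add' x y
    rw [e]
    simpa using ((hasDerivAt_id x).smul_const (pt 1 0)).const_add (pt 0 y)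
  have h2 := (hu.differentiable (pt x y)).hasFDerivAt.comp_hasDerivAt x h1
  have h3 : deriv (fun x => u (pt x y)) x = fderiv ℝ u (pt x y) (pt 1 0) := h2.deriv
  rw [h3, norm_gradient, ← sq_abs]
  gcongr
  have := (fderiv ℝ u (pt x y)).le_opNorm (pt 1 0)
  rwa [norm_pt10, mul_one, Real.norm_eq_abs] at this

lemma cs_of_bound {g : ℝ → ℝ} (h : ∀ t, R < |t| → g t = 0) : HasCompactSupport g := by
  apply HasCompactSupport.of_support_subset_isCompact (isCompact_Icc (a := -R) (b := R))
  intro t ht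
  by_contra hcon
  apply ht
  apply h
  by_contra h2
  exact hcon (abs_le.1 (not_lt.1 h2))

lemma integrable_slice {F : Plane → ℝ} (hF : Continuous F)
    (h0 : ∀ x y, R < |x| ∨ R < |y| → F (pt x y) = 0) :
    (∀ x, Integrable fun y => F (pt x y)) ∧ (∀ y, Integrable fun x => F (pt x y)) ∧
      Integrable fun x => ∫ y, F (pt x y) := by
  have hc1 : ∀ x, Continuous fun y => F (pt x y) := fun x =>
    hF.comp (continuous_pt.comp (by fun_prop : Continuous fun y : ℝ => ((x, y) : ℝ × ℝ)))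
  have hc2 : ∀ y, Continuous fun x => F (pt x y) := fun y =>
    hF.comp (continuous_pt.comp (by fun_prop : Continuous fun x : ℝ => ((x, y) : ℝ × ℝ)))
  have hc : Continuous fun p : ℝ × ℝ => F (pt p.1 p.2) := hF.comp continuous_pt
  have hcs : HasCompactSupport fun p : ℝ × ℝ => F (pt p.1 p.2) := by
    apply HasCompactSupport.of_support_subset_isCompact
      ((isCompact_Icc (a := -R) (b := R)).prod (isCompact_Icc (a := -R) (b := R)))
    rintro ⟨x, y⟩ hxy
    by_contra hcon
    apply hxy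
    apply h0
    by_contra h2
    push Not at h2
    exact hcon ⟨abs_le.1 h2.1, abs_le.1 h2.2⟩
  refine ⟨fun x => (hc1 x).integrable_of_hasCompactSupport (cs_of_bound fun t ht => h0 x t (Or.inr ht)),
    fun y => (hc2 y).integrable_of_hasCompactSupport (cs_of_bound fun t ht => h0 t y (Or.inl ht)), ?_⟩
  exact (hc.integrable_of_hasCompactSupport hcs).integral_prod_left

theorem poincare2 (hu : IsTest Ω u) (hR : 0 ≤ R) (hΩ : Ω ⊆ closedBall 0 R) :
    L2 Ω u ≤ 4 * R ^ 2 * Dir Ω u := by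
  rw [hu.l2_eq, hu.dir_eq, integral_plane (F := fun x => u x ^ 2) (hu.continuous.pow 2) hu.hasCompactSupport_usq,
    integral_plane hu.continuous_sq hu.hasCompactSupport_sq, ← integral_const_mul]
  have h1 := integrable_slice (R := R) (hu.continuous.pow 2) (by
    rintro x y (h | h)
    · simp [u_zero_of_x hu hΩ h]
    · simp [u_zero_of_y hu hΩ h])
  have h2 := integrable_slice (R := R) hu.continuous_sq (by
    rintro x y (h | h)
    · simp [g_zero_of_x hu hΩ h]
    · simp [g_zero_of_y hu hΩ h])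
  apply integral_mono h1.2.2 (h2.2.2.const_mul _)
  intro x
  have h3 := poincare1 (contDiff_slice_y hu x) hR (fun y hy => u_zero_of_y hu hΩ hy)
  have h4 : ∫ y, deriv (fun y => u (pt x y)) y ^ 2 ≤ ∫ y, ‖gradient u (pt x y)‖ ^ 2 := by
    apply integral_mono _ (h2.1 x) (fun y => deriv_slice_y hu x y)
    apply Continuous.integrable_of_hasCompactSupport
      (((contDiff_slice_y hu x).continuous_deriv le_rfl).pow 2)
    apply cs_of_bound (R := R)
    intro t ht
    have := deriv_suppIn (R := R) (f := fun y => u (pt x y))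
      (fun y hy => u_zero_of_y hu hΩ hy) t ht
    simp [this]
  show ∫ y, u (pt x y) ^ 2 ≤ 4 * R ^ 2 * ∫ y, ‖gradient u (pt x y)‖ ^ 2
  refine h3.trans ?_
  gcongr

theorem ladder2 (hu : IsTest Ω u) (hR : 0 ≤ R) (hΩ : Ω ⊆ closedBall 0 R) {n : ℕ} (hn : 0 < n) :
    L2 Ω u ≤ 2 * (2 * R / n) * (4 * R ^ 2) *
        (∑ j ∈ Finset.range n, ∫ x, ‖gradient u (pt x (-R + j * (2 * R / n)))‖ ^ 2) +
      2 * (2 * R / n) ^ 2 * Dir Ω u := by
  have hn' : (0 : ℝ) < n := by exact_mod_cast hn
  set h : ℝ := 2 * R / n with hh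
  have hh0 : 0 ≤ h := by positivity
  rw [hu.l2_eq, hu.dir_eq, integral_plane (F := fun x => u x ^ 2) (hu.continuous.pow 2) hu.hasCompactSupport_usq,
    integral_plane hu.continuous_sq hu.hasCompactSupport_sq]
  have h1 := integrable_slice (R := R) (hu.continuous.pow 2) (by
    rintro x y (h | h)
    · simp [u_zero_of_x hu hΩ h]
    · simp [u_zero_of_y hu hΩ h])
  have h2 := integrable_slice (R := R) hu.continuous_sq (by
    rintro x y (h | h)
    · simp [g_zero_of_x hu hΩ h]
    · simp [g_zero_of_y hu hΩ h])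
  have hi : Integrable fun x => 2 * h * ∑ j ∈ Finset.range n, u (pt x (-R + j * h)) ^ 2 +
      2 * h ^ 2 * ∫ y, ‖gradient u (pt x y)‖ ^ 2 := by
    apply Integrable.add
    · apply Integrable.const_mul
      apply integrable_finset_sum
      intro j _
      exact h1.2.1 _
    · exact h2.2.2.const_mul _
  have step1 : ∫ x, ∫ y, u (pt x y) ^ 2 ≤ ∫ x, (2 * h * ∑ j ∈ Finset.range n,
      u (pt x (-R + j * h)) ^ 2 + 2 * h ^ 2 * ∫ y, ‖gradient u (pt x y)‖ ^ 2) := by
    apply integral_mono h1.2.2 hi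
    intro x
    have h3 := ladder1 (contDiff_slice_y hu x) hR (fun y hy => u_zero_of_y hu hΩ hy) hn
    have h4 : ∫ y, deriv (fun y => u (pt x y)) y ^ 2 ≤ ∫ y, ‖gradient u (pt x y)‖ ^ 2 := by
      apply integral_mono _ (h2.1 x) (fun y => deriv_slice_y hu x y)
      apply Continuous.integrable_of_hasCompactSupport
        (((contDiff_slice_y hu x).continuous_deriv le_rfl).pow 2)
      apply cs_of_bound (R := R)
      intro t ht
      have := deriv_suppIn (R := R) (f := fun y => u (pt x y))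
        (fun y hy => u_zero_of_y hu hΩ hy) t ht
      simp [this]
    show ∫ y, u (pt x y) ^ 2 ≤ 2 * h * ∑ j ∈ Finset.range n,
      u (pt x (-R + j * h)) ^ 2 + 2 * h ^ 2 * ∫ y, ‖gradient u (pt x y)‖ ^ 2
    refine h3.trans ?_
    rw [← hh]
    gcongr
  have step2 : ∫ x, (2 * h * ∑ j ∈ Finset.range n,
      u (pt x (-R + j * h)) ^ 2 + 2 * h ^ 2 * ∫ y, ‖gradient u (pt x y)‖ ^ 2) =
      2 * h * (∑ j ∈ Finset.range n, ∫ x, u (pt x (-R + j * h)) ^ 2) +
        2 * h ^ 2 * ∫ x, ∫ y, ‖gradient u (pt x y)‖ ^ 2 := by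
    rw [integral_add, integral_const_mul, integral_const_mul, integral_finset_sum]
    · intro j _; exact h1.2.1 _
    · apply Integrable.const_mul
      apply integrable_finset_sum
      intro j _
      exact h1.2.1 _
    · exact h2.2.2.const_mul _
  have step3 : ∀ y : ℝ, ∫ x, u (pt x y) ^ 2 ≤ 4 * R ^ 2 * ∫ x, ‖gradient u (pt x y)‖ ^ 2 := by
    intro y
    have h3 := poincare1 (contDiff_slice_x hu y) hR (fun x hx => u_zero_of_x hu hΩ hx)
    have h4 : ∫ x, deriv (fun x => u (pt x y)) x ^ 2 ≤ ∫ x, ‖gradient u (pt x y)‖ ^ 2 := by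
      apply integral_mono _ (h2.2.1 y) (fun x => deriv_slice_x hu x y)
      apply Continuous.integrable_of_hasCompactSupport
        (((contDiff_slice_x hu y).continuous_deriv le_rfl).pow 2)
      apply cs_of_bound (R := R)
      intro t ht
      have := deriv_suppIn (R := R) (f := fun x => u (pt x y))
        (fun x hx => u_zero_of_x hu hΩ hx) t ht
      simp [this]
    refine h3.trans ?_
    gcongr
  calc ∫ x, ∫ y, u (pt x y) ^ 2 ≤ _ := step1
    _ = _ := step2
    _ ≤ 2 * h * ∑ j ∈ Finset.range n, (4 * R ^ 2 * ∫ x, ‖gradient u (pt x (-R + j * h))‖ ^ 2) +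
        2 * h ^ 2 * ∫ x, ∫ y, ‖gradient u (pt x y)‖ ^ 2 := by
        gcongr with j _
        exact step3 _
    _ = _ := by rw [← Finset.mul_sum]; ring

end Pool.Agent.Helper46.Stiff
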